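import Pool.Agent.MP_81f5b7_pr.G1.Spec

/-! The analytic inequality. -/

set_option autoImplicit false

namespace Pool.Agent.MP_81f5b7_pr.G1

open Finset

namespace ANA

theorem log_ge {x : ℝ} (h0 : 0 ≤ x) (h1 : x < 1) : x + x ^ 2 / 2 ≤ -Real.log (1 - x) := by
  have h := Real.hasSum_pow_div_log_of_abs_lt_one (x := x) (by rw [abs_of_nonneg h0]; exact h1)
  have h2 := sum_le_hasSum (range 2) (fun n _ => by positivity) h
  simp only [sum_range_succ, sum_range_zero] at h2
  norm_num at h2
  linarith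

theorem one {a : ℝ} (h0 : 0 < a) (h1 : a ≤ 1) :
    1 - 3 * a ^ 2 + 2 * a ^ 3 ≤ -3 * Real.log a / 4.154 := by
  have l2 := Real.log_two_gt_d9
  have e2 : Real.log (2 * a) = Real.log 2 + Real.log a := Real.log_mul (by norm_num) h0.ne'
  rw [le_div_iff₀ (by norm_num)]
  rcases le_total a (1 / 2) with c1 | c1
  · have h := log_ge (x := 1 - 2 * a) (by linarith) (by linarith)
    rw [show 1 - (1 - 2 * a) = 2 * a by ring, e2] at h
    have h3 : 0 ≤ (1 - 2 * a) ^ 3 := pow_nonneg (by linarith) 3
    nlinarith [sq_nonneg (1 - 2 * a - 0.0385)]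
  rcases le_total a (2 / 3) with c2 | c2
  · have h := Real.log_le_sub_one_of_pos (x := 2 * a) (by linarith)
    rw [e2] at h
    have h3 : 0 ≤ (2 * a - 1) * ((1 / 3 - (2 * a - 1)) * (1 / 3 + (2 * a - 1))) :=
      mul_nonneg (by linarith) (mul_nonneg (by linarith) (by linarith))
    nlinarith
  · have h := log_ge (x := 1 - a) (by linarith) (by linarith)
    rw [show 1 - (1 - a) = a by ring] at h
    have h3 : 0 ≤ (1 - a) * ((a - 2 / 3) * a) :=
      mul_nonneg (by linarith) (mul_nonneg (by linarith) h0.le)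
    have h4 : 0 ≤ (1 - a) * (a - 2 / 3) := mul_nonneg (by linarith) (by linarith)
    nlinarith

theorem tangent (t u : ℝ) : Real.exp u * (1 + (t - u)) ≤ Real.exp t := by
  have h := Real.add_one_le_exp (t - u)
  have e : Real.exp t = Real.exp u * Real.exp (t - u) := by rw [← Real.exp_add]; congr 1; ring
  rw [e]
  exact mul_le_mul_of_nonneg_left (by linarith) (Real.exp_pos u).le

end ANA

open ANA in
theorem rowANA : RowANA := by
  intro x y z hx hy hz
  have h := one (a := Real.exp (-(x + y + z) / 3)) (Real.exp_pos _)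
    (Real.exp_le_one_iff.2 (by linarith))
  rw [Real.log_exp, ← Real.exp_nat_mul, ← Real.exp_nat_mul] at h
  push_cast at h
  rw [show 3 * (-(x + y + z) / 3) = -(x + y + z) by ring,
    show -3 * (-(x + y + z) / 3) = x + y + z by ring] at h
  have t1 := tangent (-(x + y)) (2 * (-(x + y + z) / 3))
  have t2 := tangent (-(x + z)) (2 * (-(x + y + z) / 3))
  have t3 := tangent (-(y + z)) (2 * (-(x + y + z) / 3))
  nlinarith

end Pool.Agent.MP_81f5b7_pr.G1
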