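import Pool.Agent.MP_81f5b7_pr.G1.Spec

/-! Undecided large classes are rare in time. -/

set_option autoImplicit false
set_option linter.style.haveILetI false

namespace Pool.Agent.MP_81f5b7_pr.G1

open Finset Filter H42 H42.TRI

theorem rowDEC : RowDEC := by
  intro V _ _ h δ K S hδ
  haveI := nonempty_of_two h
  haveI := nonempty_Pr h
  have h1 := potential gs (I := fun _ : St V => True) (fun _ _ _ => trivial)
    (Φ := fun T => DD T) (g := fun T => δ ^ 4 * ind (¬ Dec δ T)) (B := 1)
    (fun T _ => DD_le T)
    (fun T _ => by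
      by_cases hn : Dec δ T
      · rw [ind_neg (not_not.2 hn), mul_zero, add_zero]
        exact le_av fun e => DD_mono (gs_subset T e)
      · rw [ind_pos hn, mul_one]
        have c1 : ∃ a b, δ ≤ cl T a ∧ δ ≤ cl T b ∧ ¬ eqv T a b ∧ ∃ σ ∈ T, σ a = σ b := by
          by_contra hc
          refine hn fun a b ha hb => ?_
          by_cases hab : eqv T a b
          · exact Or.inl hab
          · exact Or.inr fun σ hσ e => hc ⟨a, b, ha, hb, hab, σ, hσ, e⟩
        obtain ⟨a, b, ha, hb, hab, σ, hσ, e⟩ := c1
        have h2 := case1 h 0 hδ ha hb hab hσ e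
        simpa only [RR, range_zero, sum_empty, add_zero] using h2) K (S := S) trivial
  rw [sm_mul_left] at h1
  have hd : 0 < δ ^ 4 := by positivity
  rw [le_div_iff₀ hd]
  nlinarith [DD_nonneg S]

end Pool.Agent.MP_81f5b7_pr.G1
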