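import Pool.Agent.MP_81f5b7_pr.G1.Spec

/-! Exceptional coverings are rare in time. -/

set_option autoImplicit false
set_option linter.style.haveILetI false

namespace Pool.Agent.MP_81f5b7_pr.G1

open Finset Filter H42 H42.TRI

namespace EXC

variable {V : Type}

theorem cov_Qa {T : St V} {a b : V} (h : eqv T a b) {z : List V} (c : cov T (Qa a) z) :
    cov T (Qa b) z :=
  cov_mono_Q (fun σ hσ => by simp only [Qa, h σ hσ]; exact Subset.refl _) c

theorem cov_Qa_cons {T : St V} {a y : V} (h : eqv T a y) (z : List V) : cov T (Qa a) (y :: z) := by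
  intro σ hσ c hc
  exact ⟨y, List.mem_cons_self, ((mem_singleton.1 hc).trans (h σ hσ)).symm⟩

variable [Fintype V]

theorem XX_eq [Nonempty V] (δ : ℝ) (T : St V) (j : ℕ) : EL j (XX δ T) =
    ∑ i ∈ range j, EL i fun z => av fun x => ind (Ex1 δ T x z) := by
  induction j with
  | zero => rfl
  | succ j ih =>
    rw [EL_succ, sum_range_succ, ← ih, EL_av]
    have e : ∀ a : V, (EL j fun l => XX δ T (a :: l)) =
        (EL j fun l => ind (Ex1 δ T a l)) + EL j (XX δ T) := fun a =>
      EL_add j (fun l => ind (Ex1 δ T a l)) (XX δ T)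
    simp only [e, av_add, av_const]
    ring

theorem key {δ : ℝ} (hδ : 0 < δ) (T : St V) (i : ℕ) :
    δ ^ 2 * (EL i fun z => av fun x => ind (Ex1 δ T x z)) ≤ av fun a => HH T (Qa a) i := by
  have h3 : ∀ a, HH T (Qa a) i = EL i fun z => av fun x => av fun y => ind (¬ eqv T x y) *
      ((1 - ind (cov T (Qa a) z)) * ind (cov T (Qa a) (x :: z)) * ind (cov T (Qa a) (y :: z))) := by
    intro a
    simp only [HH, JJ, ← EL_mul_left, ← EL_av]
  simp only [h3]
  rw [← EL_av, ← EL_mul_left]
  refine EL_mono _ fun z => ?_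
  rw [av_comm, ← av_mul_left]
  refine av_mono fun x => ?_
  by_cases hx : Ex1 δ T x z
  · rw [ind_pos hx, mul_one]
    obtain ⟨a0, h1, h2, h4, h5⟩ := hx
    have hm : δ ^ 2 ≤ cl T a0 * cl T a0 := by nlinarith
    refine hm.trans ?_
    rw [cl, ← av_av_ind]
    refine av_mono fun a => av_mono fun y => ?_
    rw [← ind_not, ← ind_and, ← ind_and, ← ind_and, ← ind_and]
    refine ind_mono fun h => ⟨fun e => h5 (eqv_trans e (eqv_symm h.2)),
      ⟨fun c => h2 (cov_Qa (eqv_symm h.1) c), cov_Qa h.1 h4⟩,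
      cov_Qa_cons (eqv_trans (eqv_symm h.1) h.2) z⟩
  · rw [ind_neg hx, mul_zero]
    exact av_nonneg fun a => av_nonneg fun y => mul_nonneg (ind_nonneg _)
      (mul_nonneg (mul_nonneg (sub_nonneg.2 (ind_le_one _)) (ind_nonneg _)) (ind_nonneg _))

/-- the potential -/
noncomputable def Phi (j : ℕ) (T : St V) : ℝ := ∑ i ∈ range j, av fun a => rho T (Qa a) i

theorem Phi_nonneg (j : ℕ) (T : St V) : 0 ≤ Phi j T :=
  sum_nonneg fun _ _ => av_nonneg fun _ => rho_nonneg _ _ _

theorem Phi_le [Nonempty V] (j : ℕ) (T : St V) : Phi j T ≤ j := by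
  refine (sum_le_sum fun i _ => av_le (c := 1) fun a => rho_le_one T (Qa a) i).trans_eq ?_
  simp

theorem Phi_mono {S T : St V} (h : T ⊆ S) (j : ℕ) : Phi j S ≤ Phi j T :=
  sum_le_sum fun _ _ => av_mono fun _ => rho_mono h _ _

variable [DecidableEq V]

theorem drift_Phi (h : 2 ≤ Fintype.card V) {δ : ℝ} (hδ : 0 < δ) (j : ℕ) (T : St V) :
    Phi j T + δ ^ 2 * EL j (XX δ T) ≤ av fun e => Phi j (gs T e) := by
  haveI := nonempty_of_two h
  have h1 := step_of_gain h (Φ := Phi j) (T := T)
    (f := fun x y => ∑ i ∈ range j, av fun a => ind (¬ eqv T x y) * JJ T (Qa a) i x y)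
    (fun x y => sum_nonneg fun _ _ => av_nonneg fun _ =>
      mul_nonneg (ind_nonneg _) (JJ_nonneg _ _ _ _ _))
    (fun x => by
      simp only [ind_neg (not_not.2 (eqv_refl T x)), zero_mul, av_zero, sum_const_zero])
    (fun l => by
      by_cases hl : eqv T l.1.1 l.1.2
      · simp only [ind_neg (not_not.2 hl), zero_mul, av_zero, sum_const_zero, add_zero]
        exact Phi_mono (gs_subset T l) j
      · simp only [ind_pos hl, one_mul]
        rw [gs_of_not_eqv hl, Phi, Phi, ← sum_add_distrib]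
        refine sum_le_sum fun i _ => ?_
        rw [← av_add]
        exact av_mono fun a => rho_add_JJ _ _ _ _ _)
  have h2 : (av fun x => av fun y => ∑ i ∈ range j, av fun a =>
      ind (¬ eqv T x y) * JJ T (Qa a) i x y) = ∑ i ∈ range j, av fun a => HH T (Qa a) i := by
    simp only [av_sum]
    refine sum_congr rfl fun i _ => ?_
    have e : ∀ x : V, (av fun y => av fun a => ind (¬ eqv T x y) * JJ T (Qa a) i x y) =
        av fun a => av fun y => ind (¬ eqv T x y) * JJ T (Qa a) i x y := fun x => av_comm _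
    simp only [e]
    exact av_comm _
  rw [h2] at h1
  refine le_trans ?_ h1
  rw [XX_eq, mul_sum]
  exact add_le_add le_rfl (sum_le_sum fun i _ => key hδ T i)

end EXC

theorem rowEXC : RowEXC := by
  intro V _ _ h δ K j S hδ
  haveI := nonempty_of_two h
  haveI := nonempty_Pr h
  have h1 := potential gs (I := fun _ : St V => True) (fun _ _ _ => trivial)
    (Φ := EXC.Phi j) (g := fun T => δ ^ 2 * EL j (XX δ T)) (B := (j : ℝ))
    (fun T _ => EXC.Phi_le j T) (fun T _ => EXC.drift_Phi h hδ j T) K (S := S) trivial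
  rw [sm_mul_left] at h1
  rw [le_div_iff₀ (by positivity)]
  linarith [EXC.Phi_nonneg j S]

end Pool.Agent.MP_81f5b7_pr.G1
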