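import Pool.Agent.MP_81f5b7_pr.G1.Spec
import Pool.Agent.MP_81f5b7_pr.H42.IGN

/-! Three classes freeze shortly after the first rejection, in the form used for the lower bound. -/

set_option autoImplicit false
set_option linter.style.haveILetI false

namespace Pool.Agent.MP_81f5b7_pr.G1

open Finset Filter H42 H42.TRI H42.IGN

namespace IG

variable {V : Type}

theorem dth_unique {l : List (Pr V)} {s t : ℕ} (hs' : dth l s) (ht : dth l t) : s = t := by
  rcases lt_trichotomy s t with h | h | h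
  · exact absurd (ht.1.mono (hr_take_anti l h)) hs'.2
  · exact h
  · exact absurd (hs'.1.mono (hr_take_anti l h)) ht.2

theorem gr_take_anti (l : List (Pr V)) {a b : ℕ} (h : a ≤ b) : gr (l.take b) ⊆ gr (l.take a) := by
  obtain ⟨c, rfl⟩ := Nat.exists_eq_add_of_le h
  rw [List.take_add, gr_append]
  exact foldl_gs_subset _ _

variable [Fintype V]

theorem Tri_le {S : St V} {δ δ₀ : ℝ} (h : δ ≤ δ₀) (e : Tri S δ₀) : Tri S δ :=
  let ⟨A, h1, h2⟩ := e
  ⟨A, fun i => (mul_le_mul_of_nonneg_right h (Nat.cast_nonneg _)).trans (h1 i), h2⟩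

/-- the death times are exclusive -/
theorem sum_le_bad (l : List (Pr V)) (M : ℕ) {K r : ℕ} (hK : K ≤ r + 1) (ζ δ : ℝ) :
    ∑ t ∈ range M, ind (dth l t) *
      ind (¬ Tri (((l.drop (t + 1)).take r).foldl gs (hr (l.take t))) δ) ≤
    ind (¬ ∃ t, t < M ∧ (hr (l.take t)).Nonempty ∧ ¬ (hr (l.take (t + 1))).Nonempty ∧
      yy (hr (l.take (t - K))) ≤ ζ ∧ Tri (gr (l.take (t + K))) δ) := by
  by_cases h : ∃ t ∈ range M, dth l t
  · obtain ⟨t, ht, hd⟩ := h
    rw [sum_eq_single_of_mem t ht fun s _ hst => by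
      rw [ind_neg fun h1 => hst (dth_unique h1 hd), zero_mul], ind_pos hd, one_mul]
    refine ind_mono fun hn => ?_
    rintro ⟨s, -, h1, h2, -, h3⟩
    obtain rfl := dth_unique (⟨h1, h2⟩ : dth l s) hd
    rw [← gr_after hd] at hn
    exact hn (Tri_mono (gr_take_anti l (by omega)) h3)
  · rw [sum_eq_zero fun t ht => by rw [ind_neg fun h1 => h ⟨t, ht, h1⟩, zero_mul]]
    exact ind_nonneg _

variable [DecidableEq V]

/-- conditioning on death at step `t`, the other inequality -/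
theorem death_ge {t L : ℕ} (ht : t < L) (G : St V → List (Pr V) → ℝ) (g : St V → ℝ)
    (hG : ∀ S : St V, g S ≤ EL (L - (t + 1)) (G S)) :
    (EL t fun l : List (Pr V) => chi (hr l) * hz (hr l) * g (hr l)) ≤
      EL L (fun l => ind (dth l t) * G (hr (l.take t)) (l.drop (t + 1))) := by
  have h := death ht (fun S l => -1 * G S l) (fun S => -1 * g S) fun S _ => by
    rw [EL_mul_left]; linarith [hG S]
  have e1 : (fun l : List (Pr V) => ind (dth l t) * (-1 * G (hr (l.take t)) (l.drop (t + 1)))) =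
      fun l => -1 * (ind (dth l t) * G (hr (l.take t)) (l.drop (t + 1))) := funext fun l => by ring
  have e2 : (fun l : List (Pr V) => chi (hr l) * hz (hr l) * (-1 * g (hr l))) =
      fun l => -1 * (chi (hr l) * hz (hr l) * g (hr l)) := funext fun l => by ring
  rw [e1, e2, EL_mul_left, EL_mul_left] at h
  linarith

theorem win_le (h : 2 ≤ Fintype.card V) {K r : ℕ} (hr' : r ≤ K) {δ δ₀ : ℝ} (hδ : δ ≤ δ₀)
    (S : St V) :
    win K (fun T => ind (¬ Tri T δ)) S ≤ it gs r (fun T => ind (¬ Tri T δ₀)) S := by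
  haveI := nonempty_Pr h
  have h0 : 0 ≤ it gs r (fun T => ind (¬ Tri T δ₀)) S := it_nonneg _ _ (fun _ => ind_nonneg _) _
  have h3 : ∀ m ∈ range K, it gs (K + m) (fun T => ind (¬ Tri T δ)) S ≤
      it gs r (fun T => ind (¬ Tri T δ₀)) S := by
    intro m _
    obtain ⟨b, hb⟩ := Nat.exists_eq_add_of_le (show r ≤ K + m by omega)
    rw [hb, it_add]
    refine it_mono _ _ (fun T => ?_) S
    exact EL_le _ fun l _ => ind_mono fun hn ht =>
      hn (Tri_le hδ (Tri_mono (foldl_gs_subset T l) ht))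
  have h4 := sum_le_sum h3
  rw [sum_const, card_range, nsmul_eq_mul, mul_comm] at h4
  exact div_le_of_le_mul₀ (Nat.cast_nonneg _) h0 h4

theorem lst_le (h : 2 ≤ Fintype.card V) (M K : ℕ) (ζ δ : ℝ) :
    lst M (it gs (K - 1) fun T => ind (¬ Tri T δ)) (Set.univ : St V) ≤
    EL (M + K) fun l : List (Pr V) => ind (¬ ∃ t, t < M ∧ (hr (l.take t)).Nonempty ∧
      ¬ (hr (l.take (t + 1))).Nonempty ∧ yy (hr (l.take (t - K))) ≤ ζ ∧
      Tri (gr (l.take (t + K))) δ) := by
  haveI := nonempty_Pr h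
  refine le_trans ?_ (EL_mono _ fun l => sum_le_bad l M (r := K - 1) (by omega) ζ δ)
  rw [EL_sum, lst, sm_hs_eq]
  refine sum_le_sum fun t ht => ?_
  have ht' := mem_range.1 ht
  refine death_ge (by omega) (fun S l' => ind (¬ Tri ((l'.take (K - 1)).foldl gs S) δ))
    (it gs (K - 1) fun T => ind (¬ Tri T δ)) fun S => ?_
  rw [EL_take (by omega) fun l' => ind (¬ Tri (l'.foldl gs S) δ)]
  exact le_rfl

end IG

open IG in
theorem rowIG (hI : H42.RowIGN) : RowIG := by
  intro η hη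
  obtain ⟨δ₀, hδ₀, h⟩ := hI η hη
  obtain ⟨K₀, h⟩ := h 1 one_pos
  refine ⟨δ₀, hδ₀, K₀, ?_⟩
  filter_upwards [h, eventually_ge_atTop 2] with n h1 h2 δ K M hδ hK hM
  have hn : 2 ≤ Fintype.card (Fin n) := by simpa using h2
  refine le_trans ?_ ((lst_le hn (3 * n) K₀ 1 δ₀).trans h1)
  have p0 : ∀ T : St (Fin n), 0 ≤ chi T * hz T := fun T => mul_nonneg (chi_nonneg T) (hz_nonneg T)
  unfold nt lst
  refine (sm_mono hs M (fun T => mul_le_mul_of_nonneg_left
    (win_le hn (r := K₀ - 1) (by omega) hδ T) (p0 T)) _).trans ?_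
  exact sm_mono_left hs hM
    (fun T => mul_nonneg (p0 T) (it_nonneg _ _ (fun _ => ind_nonneg _) _)) _

end Pool.Agent.MP_81f5b7_pr.G1
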