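import Pool.Agent.MP_81f5b7_pr.G1.Spec

/-! A frozen new vertex sees two large classes. -/

set_option autoImplicit false

namespace Pool.Agent.MP_81f5b7_pr.G1

open Finset Filter H42 H42.TRI

namespace KEY

variable {W : Type}

theorem ext_mem {S : St W} {z : List W} {σ : W → Fin 3} (hσ : σ ∈ S) {c : Fin 3}
    (hc : ∀ x ∈ z, σ x ≠ c) : (fun o : Option W => o.elim c σ) ∈ xt S z :=
  ⟨hσ, fun x hx e => hc x hx e.symm⟩

variable [Fintype W]

theorem XX_nonneg (δ : ℝ) (S : St W) (z : List W) : 0 ≤ XX δ S z := by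
  induction z with
  | nil => exact le_refl _
  | cons x z ih => exact add_nonneg (ind_nonneg _) ih

theorem cl_eqv {S : St W} {x a : W} (h : eqv S x a) : cl S x = cl S a := by
  unfold cl
  congr 1
  funext y
  exact ind_congr ⟨fun e => eqv_trans (eqv_symm h) e, fun e => eqv_trans h e⟩

theorem cl_ge {S : St W} {a : W} {A : Finset W} (h : ∀ y ∈ A, eqv S a y) :
    (A.card : ℝ) / Fintype.card W ≤ cl S a := by
  classical
  rw [cl, av_ind]
  refine div_le_div_of_nonneg_right ?_ (Nat.cast_nonneg _)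
  exact_mod_cast card_le_card fun y hy => mem_filter.2 ⟨mem_univ _, h y hy⟩

theorem cover {δ : ℝ} {S : St W} (hS : S.Nonempty) {a : W} (ha : δ ≤ cl S a) (z : List W)
    (h : cov S (Qa a) z) : (∃ x ∈ z, eqv S x a) ∨ 1 ≤ XX δ S z := by
  induction z with
  | nil =>
    obtain ⟨σ, hσ⟩ := hS
    obtain ⟨x, hx, -⟩ := h σ hσ (σ a) (mem_singleton_self _)
    exact absurd hx List.not_mem_nil
  | cons x z ih =>
    have h0 := XX_nonneg δ S z
    have h1 := ind_nonneg (Ex1 δ S x z)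
    by_cases hz : cov S (Qa a) z
    · rcases ih hz with ⟨y, hy, e⟩ | h2
      · exact Or.inl ⟨y, List.mem_cons_of_mem _ hy, e⟩
      · right
        show 1 ≤ ind (Ex1 δ S x z) + XX δ S z
        linarith
    · by_cases hx : eqv S x a
      · exact Or.inl ⟨x, List.mem_cons_self, hx⟩
      · right
        show 1 ≤ ind (Ex1 δ S x z) + XX δ S z
        rw [ind_pos (p := Ex1 δ S x z) ⟨a, ha, hz, h, hx⟩]
        linarith

theorem one_le {δ : ℝ} {S : St W} (hS : S.Nonempty) (hT : Tri S δ) (hD : Dec δ S) {a b : W}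
    (ha : δ ≤ cl S a) (hb : δ ≤ cl S b) (hab : ∀ σ ∈ S, σ a ≠ σ b) {z : List W}
    (ca : cov S (Qa a) z) (cb : cov S (Qa b) z) : 1 ≤ Gt δ S z := by
  have h0 := XX_nonneg δ S z
  have h1 := ind_nonneg (¬ Tri S δ)
  have h2 := ind_nonneg (¬ Dec δ S)
  have h3 := ind_nonneg (Two δ S z)
  unfold Gt
  rcases cover hS ha z ca with ⟨x, hx, ex⟩ | h
  · rcases cover hS hb z cb with ⟨y, hy, ey⟩ | h
    · have h4 : Two δ S z := by
        refine ⟨hT, hD, x, hx, y, hy, ha.trans_eq (cl_eqv ex).symm,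
          hb.trans_eq (cl_eqv ey).symm, fun e => ?_⟩
        obtain ⟨σ, hσ⟩ := hS
        exact hab σ hσ ((ex σ hσ).symm.trans ((e σ hσ).trans (ey σ hσ)))
      rw [ind_pos h4]
      linarith
    · linarith
  · linarith

theorem anchors (hW : 2 ≤ Fintype.card W) {δ : ℝ} (hδ : 0 < δ) {S : St W} (hT : Tri S δ)
    (z : List W) : ∃ a : Fin 3 → W, (∀ i, δ ≤ cl S (a i)) ∧
      (∀ i, δ / 2 ≤ cl (xt S z) (some (a i))) ∧ ∀ i j, i ≠ j → ∀ σ ∈ S, σ (a i) ≠ σ (a j) := by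
  obtain ⟨A, h1, h2⟩ := hT
  have hN : (2 : ℝ) ≤ Fintype.card W := by exact_mod_cast hW
  have hne : ∀ i, (A i).Nonempty := fun i => by
    have h3 : (0 : ℝ) < (A i).card := lt_of_lt_of_le (by positivity) (h1 i)
    exact card_pos.1 (by exact_mod_cast h3)
  choose a ha using hne
  have he : ∀ i, ∀ y ∈ A i, eqv S (a i) y := fun i y hy σ hσ =>
    (h2 σ hσ i i _ (ha i) y hy).2 rfl
  refine ⟨a, fun i => ?_, fun i => ?_, fun i j hij σ hσ e => hij ((h2 σ hσ i j _ (ha i) _ (ha j)).1 e)⟩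
  · refine le_trans ?_ (cl_ge (he i))
    rw [le_div_iff₀ (by linarith)]
    exact h1 i
  · have h3 : ∀ y ∈ (A i).map Function.Embedding.some, eqv (xt S z) (some (a i)) y := by
      intro y hy τ hτ
      obtain ⟨x, hx, rfl⟩ := mem_map.1 hy
      exact he i x hx _ hτ.1
    refine le_trans ?_ (cl_ge h3)
    rw [card_map, Fintype.card_option, le_div_iff₀ (by positivity)]
    push_cast
    nlinarith [h1 i]

theorem Gt_nonneg (δ : ℝ) (S : St W) (z : List W) : 0 ≤ Gt δ S z :=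
  add_nonneg (add_nonneg (add_nonneg (ind_nonneg _) (ind_nonneg _)) (ind_nonneg _))
    (XX_nonneg δ S z)

theorem settled {δ : ℝ} {S : St W} {z : List W} (h : Tri S δ → Dec δ S → 1 ≤ Gt δ S z) :
    1 ≤ Gt δ S z := by
  have h0 := XX_nonneg δ S z
  have h1 := ind_nonneg (¬ Tri S δ)
  have h2 := ind_nonneg (¬ Dec δ S)
  have h3 := ind_nonneg (Two δ S z)
  by_cases hT : Tri S δ
  · by_cases hD : Dec δ S
    · exact h hT hD
    · unfold Gt
      rw [ind_pos hD]
      linarith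
  · unfold Gt
    rw [ind_pos hT]
    linarith

theorem frozen (hW : 2 ≤ Fintype.card W) {δ : ℝ} (hδ : 0 < δ) {S : St W} (hS : S.Nonempty)
    {z : List W} (hz : ¬ cov S U z) (hF : Fz δ (xt S z)) : 1 ≤ Gt δ S z := by
  refine settled fun hT hD => ?_
  obtain ⟨a, h1, h2, h3⟩ := anchors hW hδ hT z
  have h4 : ∃ σ ∈ S, ∃ c : Fin 3, ∀ x ∈ z, σ x ≠ c := by
    by_contra hn
    refine hz fun σ hσ c _ => ?_
    by_contra hc
    exact hn ⟨σ, hσ, c, fun x hx e => hc ⟨x, hx, e⟩⟩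
  obtain ⟨σ, hσ, c, hc⟩ := h4
  have hinj : Function.Injective fun i => σ (a i) := fun i j e =>
    by_contra fun hij => h3 i j hij σ hσ e
  obtain ⟨i, hi⟩ := Finite.injective_iff_surjective.1 hinj c
  have h5 : eqv (xt S z) none (some (a i)) := by
    rcases hF.2 none (some (a i)) (by linarith [hF.1]) (h2 i) with h | h
    · exact h
    · exact absurd hi.symm (h _ (ext_mem hσ hc))
  have h6 : ∀ j, j ≠ i → cov S (Qa (a j)) z := by
    intro j hj τ hτ d hd
    obtain rfl : d = τ (a j) := mem_singleton.1 hd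
    by_contra hn
    exact h3 j i hj τ hτ (h5 _ (ext_mem hτ fun x hx e => hn ⟨x, hx, e⟩))
  have h7 : ∀ i : Fin 3, i + 1 ≠ i ∧ i + 2 ≠ i ∧ i + 1 ≠ i + 2 := by decide
  exact one_le hS hT hD (h1 (i + 1)) (h1 (i + 2)) (h3 _ _ (h7 i).2.2) (h6 _ (h7 i).1)
    (h6 _ (h7 i).2.1)

end KEY

theorem rowKEY : RowKEY := by
  intro W _ _ hW δ S z hδ hS
  refine ⟨fun hz => KEY.settled fun hT hD => ?_, fun hz => ?_⟩
  · obtain ⟨a, h1, -, h3⟩ := KEY.anchors hW hδ hT z
    have h4 : ∀ i, cov S (Qa (a i)) z := fun i => cov_mono_Q (fun _ _ => subset_univ _) hz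
    exact KEY.one_le hS hT hD (h1 0) (h1 1) (h3 0 1 (by decide)) (h4 0) (h4 1)
  · by_cases hF : Fz δ (xt S z)
    · rw [ind_pos hF]
      exact KEY.frozen hW hδ hS hz hF
    · rw [ind_neg hF]
      exact KEY.Gt_nonneg δ S z

end Pool.Agent.MP_81f5b7_pr.G1
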