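import Pool.Agent.MP_81f5b7_pr.G1.Spec

/-! The recursion in the number of vertices gives the lower bound for the threshold. -/

set_option autoImplicit false
set_option linter.style.haveILetI false

namespace Pool.Agent.MP_81f5b7_pr.G1

open Finset Filter H42 H42.TRI

namespace LOW

section
variable {V : Type} [Fintype V]

theorem le_av_ind [Nonempty V] {δ : ℝ} {A : Finset V} {p : V → Prop} (hA : δ * Fintype.card V ≤ A.card)
    (hp : ∀ x ∈ A, p x) : δ ≤ av fun x => ind (p x) := by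
  classical
  have hN : (0 : ℝ) < Fintype.card V := by exact_mod_cast Fintype.card_pos
  rw [av_ind, le_div_iff₀ hN]
  refine hA.trans ?_
  exact_mod_cast card_le_card fun x hx => mem_filter.2 ⟨mem_univ _, hp x hx⟩

theorem Ph_nonneg (δ : ℝ) (T : St V) : 0 ≤ Ph δ T := av_nonneg fun _ => ind_nonneg _

theorem Ph_le [Nonempty V] (δ : ℝ) (T : St V) : Ph δ T ≤ 1 := av_le fun _ => ind_le_one _

theorem Ph_ge [Nonempty V] {δ δ₀ : ℝ} (h : δ ≤ δ₀) (T : St V) :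
    δ₀ * (1 - ind (¬ Tri T δ₀)) ≤ Ph δ T := by
  by_cases hT : Tri T δ₀
  · rw [ind_neg (not_not.2 hT), sub_zero, mul_one]
    obtain ⟨A, hA, hB⟩ := hT
    refine le_av_ind (hA 0) fun x hx => h.trans ?_
    exact le_av_ind (hA 0) fun y hy σ hσ => (hB σ hσ 0 0 x hx y hy).2 rfl
  · rw [ind_pos hT, sub_self, mul_zero]; exact Ph_nonneg _ _

variable [DecidableEq V]

theorem sm_hz (h : 2 ≤ Fintype.card V) (M : ℕ) (S : St V) :
    sm hs M (fun T => chi T * hz T) S = chi S - al M S := by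
  haveI := nonempty_Pr h
  induction M generalizing S with
  | zero => simp [al_zero]
  | succ M ih =>
    rw [sm_succ, al_succ]
    simp only [ih]
    rw [av_sub, av_chi h]
    by_cases hT : S.Nonempty
    · rw [chi_pos hT]; ring
    · rw [Set.not_nonempty_iff_eq_empty.1 hT, chi_empty]
      have : hz (∅ : St V) = 1 := by
        simp only [hz, hs_empty]; rw [ind_pos (by simp), av_const]
      rw [this]; ring

theorem win_nonneg (K : ℕ) {f : St V → ℝ} (hf : ∀ T, 0 ≤ f T) (S : St V) : 0 ≤ win K f S :=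
  div_nonneg (sum_nonneg fun _ _ => it_nonneg _ _ hf _) (Nat.cast_nonneg _)

theorem win_le (h : 2 ≤ Fintype.card V) (K : ℕ) {f : St V → ℝ} (hf : ∀ T, f T ≤ 1) (S : St V) :
    win K f S ≤ 1 := by
  haveI := nonempty_Pr h
  refine div_le_one_of_le₀ ?_ (Nat.cast_nonneg _)
  refine (sum_le_sum fun m _ => (it_mono gs (K + m) hf S).trans_eq (it_const gs _ 1 S)).trans_eq ?_
  simp

theorem win_ge (h : 2 ≤ Fintype.card V) {K : ℕ} (hK : 1 ≤ K) {δ δ₀ : ℝ} (hd : δ ≤ δ₀) (S : St V) :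
    δ₀ * (1 - win K (fun T => ind (¬ Tri T δ₀)) S) ≤ win K (Ph δ) S := by
  haveI := nonempty_Pr h
  haveI := nonempty_of_two h
  have hK' : (0 : ℝ) < K := by exact_mod_cast hK
  have h1 : ∀ m, δ₀ * (1 - it gs (K + m) (fun T => ind (¬ Tri T δ₀)) S) ≤ it gs (K + m) (Ph δ) S := by
    intro m
    refine le_trans (le_of_eq ?_) (it_mono gs (K + m) (Ph_ge hd) S)
    rw [it_mul_left, it_fun_sub, it_const]
  have h2 := sum_le_sum fun m (_ : m ∈ range K) => h1 m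
  rw [← mul_sum, sum_sub_distrib] at h2
  simp only [sum_const, card_range, nsmul_eq_mul, mul_one] at h2
  unfold win
  rw [le_div_iff₀ hK']
  refine le_trans (le_of_eq ?_) h2
  field_simp

end

theorem aa_nonneg (n : ℕ) (δ : ℝ) (K M : ℕ) : 0 ≤ aa n δ K M :=
  sm_nonneg _ _ (fun T => mul_nonneg (mul_nonneg (chi_nonneg T) (hz_nonneg T))
    (win_nonneg K (Ph_nonneg δ) T)) _

theorem aa_le {n : ℕ} (hn : 2 ≤ n) (δ : ℝ) (K M : ℕ) : aa n δ K M ≤ 1 := by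
  have h : 2 ≤ Fintype.card (Fin n) := by simpa using hn
  haveI := nonempty_of_two h
  refine le_trans (sm_mono hs M (fun T => ?_) _) (sm_hz_le h M _)
  exact mul_le_of_le_one_right (mul_nonneg (chi_nonneg T) (hz_nonneg T)) (win_le h K (Ph_le δ) T)

theorem aa_ge {n : ℕ} (hn : 2 ≤ n) {K : ℕ} (hK : 1 ≤ K) {δ δ₀ : ℝ} (hd : δ ≤ δ₀) (M : ℕ) :
    δ₀ * (1 - pp n M - nt n δ₀ K M) ≤ aa n δ K M := by
  have h : 2 ≤ Fintype.card (Fin n) := by simpa using hn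
  have h1 : sm hs M (fun T : St (Fin n) => δ₀ * (chi T * hz T)) Set.univ ≤
      sm hs M (fun T : St (Fin n) => chi T * hz T * win K (Ph δ) T +
        δ₀ * (chi T * hz T * win K (fun T => ind (¬ Tri T δ₀)) T)) Set.univ := by
    refine sm_mono hs M (fun T => ?_) _
    have := mul_le_mul_of_nonneg_left (win_ge h hK hd T) (mul_nonneg (chi_nonneg T) (hz_nonneg T))
    linarith
  rw [sm_fun_add, sm_mul_left, sm_mul_left, sm_hz h, chi_pos Set.univ_nonempty] at h1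
  have e1 : aa n δ K M = sm hs M (fun T : St (Fin n) => chi T * hz T * win K (Ph δ) T) Set.univ := rfl
  have e2 : nt n δ₀ K M = sm hs M (fun T : St (Fin n) =>
      chi T * hz T * win K (fun T => ind (¬ Tri T δ₀)) T) Set.univ := rfl
  have e3 : pp n M = al M (Set.univ : St (Fin n)) := rfl
  rw [e1, e2, e3]
  linarith

end LOW

open LOW in
theorem rowLOW (hS : RowSTEP) (hI : RowIG) : RowLOW := by
  intro c hc
  by_contra hlt
  rw [not_le] at hlt
  obtain ⟨c', hc1, hc2, hc3⟩ : ∃ c' : ℝ, c ≤ c' ∧ 2 ≤ c' ∧ c' < 2.077 :=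
    ⟨max c 2, le_max_left _ _, le_max_right _ _, max_lt hlt (by norm_num)⟩
  obtain ⟨c₁, hd1, hd2⟩ : ∃ c₁ : ℝ, c' < c₁ ∧ c₁ < 2.077 := exists_between hc3
  obtain ⟨γ, hγ⟩ : ∃ γ : ℝ, γ = c₁ / 2.077 := ⟨_, rfl⟩
  have hγ0 : 0 ≤ γ := by rw [hγ]; exact div_nonneg (by linarith) (by norm_num)
  have hγ1 : γ < 1 := by rw [hγ, div_lt_one (by norm_num)]; exact hd2
  obtain ⟨δ₀, h0, K₀, e0⟩ := hI (1 / 4) (by norm_num)
  obtain ⟨i, hi⟩ := exists_pow_lt_of_lt_one (show 0 < δ₀ / 4 by linarith) hγ1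
  obtain ⟨η, hη⟩ : ∃ η : ℝ, η = δ₀ * (1 - γ) / 20 := ⟨_, rfl⟩
  have hη0 : 0 < η := by rw [hη]; exact div_pos (mul_pos h0 (by linarith)) (by norm_num)
  obtain ⟨δ₁, h1, K₁, e1⟩ := hI η hη0
  obtain ⟨δ, hδ0, hδa, hδb, hδc⟩ : ∃ δ : ℝ, 0 < δ ∧ δ ≤ δ₀ ∧ δ ≤ δ₁ ∧ δ ≤ 1 :=
    ⟨min δ₀ (min δ₁ 1), lt_min h0 (lt_min h1 one_pos), min_le_left _ _,
      (min_le_right _ _).trans (min_le_left _ _), (min_le_right _ _).trans (min_le_right _ _)⟩
  obtain ⟨K, hK0, hK1, hK2, hK3⟩ : ∃ K : ℕ, K₀ ≤ K ∧ K₁ ≤ K ∧ 1 ≤ K ∧ 23 / (K * δ ^ 4) ≤ η := by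
    obtain ⟨k, hk⟩ := exists_nat_ge (23 / (η * δ ^ 4))
    refine ⟨K₀ + K₁ + k + 1, by omega, by omega, by omega, ?_⟩
    have hp : 0 < δ ^ 4 := by positivity
    rw [div_le_iff₀ (by positivity)] at hk
    rw [div_le_iff₀ (by positivity)]
    have : (k : ℝ) ≤ ((K₀ + K₁ + k + 1 : ℕ) : ℝ) := by exact_mod_cast (by omega)
    have := mul_le_mul_of_nonneg_right this (mul_pos hη0 hp).le
    linarith
  obtain ⟨J, hJ1, hJ2⟩ : ∃ J : ℕ, 1 ≤ J ∧ 6 / (J : ℝ) ≤ η := by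
    obtain ⟨k, hk⟩ := exists_nat_ge (6 / η)
    refine ⟨k + 1, by omega, ?_⟩
    rw [div_le_iff₀ hη0] at hk
    rw [div_le_iff₀ (by positivity)]
    push_cast
    nlinarith
  have e2 : ∀ᶠ n : ℕ in atTop, (4 * (K : ℝ) + 72) / n ≤ η :=
    (tendsto_const_div_atTop_nhds_zero_nat (4 * (K : ℝ) + 72)).eventually_le_const hη0
  have e3 : ∀ᶠ n : ℕ in atTop, ((J : ℝ) + c' * i) / (c₁ - c') ≤ n :=
    tendsto_natCast_atTop_atTop.eventually_ge_atTop _
  obtain ⟨n, hn⟩ := eventually_atTop.1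
    (e0.and (e1.and (e2.and (e3.and ((hc η hη0).and ((hc (1 / 4) (by norm_num)).and
      (eventually_ge_atTop 3)))))))
  obtain ⟨-, -, -, hn3, -, -, hn6⟩ := hn n le_rfl
  rw [div_le_iff₀ (by linarith)] at hn3
  obtain ⟨M, hM1, hM2⟩ : ∃ M : ℕ, c₁ * n ≤ M ∧ (M : ℝ) ≤ c₁ * n + 1 :=
    ⟨⌈c₁ * n⌉₊, Nat.le_ceil _, (Nat.ceil_lt_add_one (mul_nonneg (by linarith) (Nat.cast_nonneg _))).le⟩
  have hn' : (3 : ℝ) ≤ n := by exact_mod_cast hn6
  have hM3 : M ≤ 3 * n := by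
    have : (M : ℝ) ≤ 3 * n := by nlinarith
    exact_mod_cast this
  have hMJ : ∀ j : ℕ, j ≤ i → c * ((n + j : ℕ) : ℝ) ≤ ((M - J : ℕ) : ℝ) := by
    intro j hj
    have a1 : (M : ℝ) ≤ ((M - J : ℕ) : ℝ) + J := by exact_mod_cast (le_tsub_add : M ≤ M - J + J)
    have a2 : (j : ℝ) ≤ i := by exact_mod_cast hj
    have a3 : c * ((n + j : ℕ) : ℝ) ≤ c' * ((n + j : ℕ) : ℝ) :=
      mul_le_mul_of_nonneg_right hc1 (Nat.cast_nonneg _)
    have a4 : c' * (j : ℝ) ≤ c' * i := mul_le_mul_of_nonneg_left a2 (by linarith)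
    push_cast at a3 ⊢
    nlinarith
  have key : ∀ j : ℕ, j ≤ i → aa (n + j) δ K M ≤ γ ^ j + δ₀ / 4 := by
    intro j
    induction j with
    | zero => intro _; have := aa_le (n := n + 0) (by omega) δ K M; rw [pow_zero]; linarith
    | succ j ih =>
      intro hj
      have ih' := ih (by omega)
      obtain ⟨-, b1, b2, -, b4, -, -⟩ := hn (n + j) (by omega)
      have s := hS (n + j) δ K M J (by omega) hδ0 hδc hK2 hJ1 (by omega)
      have t1 := b1 δ K M hδb hK1 (by omega)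
      have t2 := b4 (M - J) (hMJ j (by omega))
      have t3 : 2 * (M : ℝ) / (4.154 * (((n + j : ℕ) : ℝ) + 1)) ≤ γ := by
        rw [div_le_iff₀ (by positivity), hγ]
        have a5 : (n : ℝ) ≤ ((n + j : ℕ) : ℝ) := by exact_mod_cast (by omega)
        have a6 : c₁ * (n : ℝ) ≤ c₁ * ((n + j : ℕ) : ℝ) := mul_le_mul_of_nonneg_left a5 (by linarith)
        have a7 : c₁ / 2.077 * (4.154 * (((n + j : ℕ) : ℝ) + 1)) =
            2 * (c₁ * ((n + j : ℕ) : ℝ) + c₁) := by ring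
        rw [a7]; linarith
      have t4 := mul_le_mul_of_nonneg_right t3 (aa_nonneg (n + j) δ K M)
      have t5 := mul_le_mul_of_nonneg_left ih' hγ0
      have e : n + (j + 1) = n + j + 1 := by omega
      rw [e, pow_succ]
      nlinarith
  obtain ⟨b0, -, -, -, -, b5, -⟩ := hn (n + i) (by omega)
  have u1 := b0 δ₀ K M le_rfl hK0 (by omega)
  have u2 := b5 M ((hMJ i le_rfl).trans (by exact_mod_cast Nat.sub_le M J))
  have u3 := aa_ge (n := n + i) (by omega) hK2 hδa M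
  have u4 := key i le_rfl
  nlinarith

end Pool.Agent.MP_81f5b7_pr.G1
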