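import Pool.Agent.MP_81f5b7_pr.G1.Spec

/-! Coupling of the greedy steps with and without the new vertex. -/

set_option autoImplicit false

namespace Pool.Agent.MP_81f5b7_pr.G1

open Finset Filter H42 H42.TRI

namespace POST

variable {W : Type}

theorem xt_nonempty (S : St W) (z : List W) : (xt S z).Nonempty ↔ ¬ cov S U z := by
  constructor
  · rintro ⟨σ, hσ, hz⟩ hc
    obtain ⟨x, hx, e⟩ := hc _ hσ (σ none) (mem_univ _)
    exact hz x hx e.symm
  · intro h
    unfold cov at h
    push Not at h
    obtain ⟨σ, hσ, c, -, hc⟩ := h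
    exact ⟨fun o => o.elim c σ, hσ, fun x hx e => hc x hx e.symm⟩

theorem cov_sub {S T : St W} (h : T ⊆ S) {z : List W} (hc : cov S U z) : cov T U z :=
  fun σ hσ => hc σ (h hσ)

theorem nonempty_of_not_cov {S : St W} {z : List W} (h : ¬ cov S U z) : S.Nonempty := by
  by_contra hn
  exact h fun σ hσ => absurd ⟨σ, hσ⟩ hn

end POST

open POST in
theorem rowPOST (hS : RowSPLIT) : RowPOST := by
  intro W _ _ hW z F G hF hG hcov hle k
  classical
  haveI : Nonempty (Pr W) := nonempty_Pr hW
  haveI : Nonempty W := Fintype.card_pos_iff.1 (by omega)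
  haveI : Nonempty (Pr (Option W)) := nonempty_Pr (by rw [Fintype.card_option]; omega)
  have h2 : (2 : ℝ) ≤ Fintype.card W := by exact_mod_cast hW
  have hp0 : 0 ≤ pr W := by unfold pr; positivity
  have hp1 : pr W ≤ 1 := by
    unfold pr; rw [div_le_one (by linarith)]; linarith
  have hF1 : ∀ (m : ℕ) (T : St (Option W)), it gs m F T ≤ 1 := fun m T =>
    (it_mono gs m hF T).trans_eq (it_const gs m 1 T)
  induction k with
  | zero =>
    intro S hc
    have := hle S hc
    simpa [it, EL] using this
  | succ k ih =>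
    intro S hc
    set φ : St (Option W) → ℝ := fun T => if T.Nonempty then it gs k F T else it gs k F (xt S z)
      with hφ
    have hφ1 : ∀ T, φ T ≤ 1 := fun T => by
      simp only [hφ]; split_ifs <;> exact hF1 _ _
    have e1 : it gs (k + 1) F (xt S z) = av fun e : Pr (Option W) => φ (hs (xt S z) e) := by
      rw [it_succ]
      refine congrArg av (funext fun e => ?_)
      by_cases h : (hs (xt S z) e).Nonempty
      · rw [gs_of_alive h]; simp only [hφ, if_pos h]
      · rw [gs_of_dead h]; simp only [hφ, if_neg h]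
    have hkp : 0 ≤ (k : ℝ) * pr W := mul_nonneg (Nat.cast_nonneg _) hp0
    have hA : ∀ e : Pr W, φ (xt (hs S e) z) ≤ it gs k G (gs S e) + k * pr W := by
      intro e
      by_cases h : cov (hs S e) U z
      · have hn : ¬ (xt (hs S e) z).Nonempty := fun hh => (xt_nonempty _ _).1 hh h
        by_cases ha : (hs S e).Nonempty
        · rw [gs_of_alive ha]
          have h1 : it gs k (fun _ => (1 : ℝ)) (hs S e) ≤ it gs k G (hs S e) :=
            it_mono_inv gs (I := fun T : St W => T.Nonempty ∧ cov T U z)
              (fun T a hT => ⟨gs_nonempty hT.1 a, cov_sub (gs_subset T a) hT.2⟩) k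
              (fun T hT => hcov T hT.1 hT.2) ⟨ha, h⟩
          rw [it_const] at h1
          linarith [hφ1 (xt (hs S e) z)]
        · rw [gs_of_dead ha]
          simp only [hφ, if_neg hn]
          exact ih S hc
      · rw [gs_of_alive (nonempty_of_not_cov h)]
        simp only [hφ, if_pos ((xt_nonempty _ _).2 h)]
        exact ih _ h
    have hB : (av fun e : Pr W => φ (xt (hs S e) z)) ≤ it gs (k + 1) G S + k * pr W := by
      refine (av_mono hA).trans_eq ?_
      rw [av_add, av_const, it_succ]
    have hC : (av fun x => φ (xt S (x :: z))) ≤ 1 := av_le fun x => hφ1 _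
    have hD : 0 ≤ it gs (k + 1) G S := it_nonneg gs _ hG S
    rw [e1, hS W hW S z φ]
    have h3 := mul_le_mul_of_nonneg_left hB (sub_nonneg.2 hp1)
    have h4 := mul_le_mul_of_nonneg_left hC hp0
    have h5 := mul_nonneg hp0 (add_nonneg hD hkp)
    push_cast
    nlinarith

end Pool.Agent.MP_81f5b7_pr.G1
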