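import Pool.Agent.MP_81f5b7_pr.G1.Kit

/-! Coupling up to the first rejection, with and without the new vertex. -/

set_option autoImplicit false
set_option linter.style.haveILetI false

namespace Pool.Agent.MP_81f5b7_pr.G1

open Finset Filter H42 H42.TRI

namespace PRE

variable {W : Type} [Fintype W]

/-- the average of `g` over `j` further neighbours -/
noncomputable def GG (g : St W → List W → ℝ) (j : ℕ) (z : List W) (T : St W) : ℝ :=
  EL j fun y => g T (y ++ z)

theorem GG_nonneg {g : St W → List W → ℝ} (h0 : ∀ S z, 0 ≤ g S z) (j : ℕ) (z : List W)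
    (T : St W) : 0 ≤ GG g j z T := EL_nonneg _ fun _ => h0 _ _

theorem le_GG [Nonempty W] {g : St W → List W → ℝ} (hm : ∀ S x z, g S z ≤ g S (x :: z)) (j : ℕ)
    (z : List W) (T : St W) : g T z ≤ GG g j z T := by
  refine le_EL _ fun y hy => ?_
  clear hy
  induction y with
  | nil => exact le_rfl
  | cons a y ih => exact ih.trans (hm _ _ _)

theorem GG_succ (g : St W → List W → ℝ) (j : ℕ) (z : List W) (T : St W) :
    GG g (j + 1) z T = av fun x => GG g j (x :: z) T := by
  unfold GG
  rw [EL_snoc, EL_av]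
  simp only [List.append_assoc, List.singleton_append]

variable [DecidableEq W]

/-- the majorant for `j` further neighbours -/
noncomputable def HH (g : St W → List W → ℝ) (M : ℕ) (S : St W) (z : List W) (j : ℕ) : ℝ :=
  lst M (GG g j z) S + al (M - j) S

theorem HH_nonneg {g : St W → List W → ℝ} (h0 : ∀ S z, 0 ≤ g S z) (M : ℕ) (S : St W)
    (z : List W) (j : ℕ) : 0 ≤ HH g M S z j :=
  add_nonneg (lst_nonneg _ (GG_nonneg h0 j z) _) (al_nonneg _ _)

theorem one_le_HH (hW : 2 ≤ Fintype.card W) {g : St W → List W → ℝ}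
    (hm : ∀ S x z, g S z ≤ g S (x :: z))
    (hc : ∀ (S : St W) z, S.Nonempty → cov S U z → 1 ≤ g S z) (M : ℕ) {S : St W} {z : List W}
    (hS : S.Nonempty) (h : cov S U z) (j : ℕ) : 1 ≤ HH g M S z j := by
  haveI := nonempty_of_two hW
  have h1 : lst M (fun _ => 1) S ≤ lst M (GG g j z) S :=
    lst_mono' M fun T hT hn => (hc T z hn (cov_mono hT h)).trans (le_GG hm j z T)
  rw [lst_one hW, chi_pos hS] at h1
  have h2 : al M S ≤ al (M - j) S := al_anti hW S (Nat.sub_le M j)
  unfold HH
  linarith

theorem al_step (hW : 2 ≤ Fintype.card W) (M j : ℕ) {S : St W} (hS : S.Nonempty) :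
    (av fun e => al (M - j) (hs S e)) ≤ al (M + 1 - j) S := by
  haveI := nonempty_Pr hW
  by_cases h : j ≤ M
  · rw [Nat.succ_sub h, al_succ]
  · have e : M + 1 - j = 0 := by omega
    rw [e, al_zero, chi_pos hS]
    exact av_le fun _ => al_le_one hW _ _

theorem cavity (hW : 2 ≤ Fintype.card W) (g : St W → List W → ℝ) (M : ℕ) {S : St W}
    (hS : S.Nonempty) (z : List W) (j : ℕ) :
    (av fun e => ind (¬ (hs S e).Nonempty) * GG g j z S + HH g M (hs S e) z j) ≤
      HH g (M + 1) S z j := by
  have h1 := al_step hW M j hS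
  simp only [HH, av_add, av_mul_right, lst_succ, chi_pos hS, hz]
  linarith

theorem star (hW : 2 ≤ Fintype.card W) {g : St W → List W → ℝ} (h0 : ∀ S z, 0 ≤ g S z) (M : ℕ)
    (S : St W) (z : List W) (j : ℕ) :
    (av fun x => HH g M S (x :: z) j) ≤ HH g (M + 1) S z (j + 1) := by
  haveI := nonempty_of_two hW
  have e : GG g (j + 1) z = fun T => av fun x => GG g j (x :: z) T := funext (GG_succ g j z)
  simp only [HH, av_add, av_const, Nat.add_sub_add_right, e, lst_av]
  exact add_le_add_left
    (av_mono fun x => lst_mono_left (Nat.le_succ M) (GG_nonneg h0 j (x :: z)) S) _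

end PRE

open PRE in
theorem rowPRE (hS : RowSPLIT) : RowPRE := by
  intro W _ _ hW f g hf h0 hm hc hle M
  haveI := nonempty_of_two hW
  have hp0 : 0 ≤ pr W := pr_nonneg
  have hp1 : pr W ≤ 1 := pr_le_one hW
  change ∀ (S : St W) (z : List W), lst M f (xt S z) ≤ bn (pr W) M (PRE.HH g M S z)
  induction M with
  | zero => intro S z; exact PRE.HH_nonneg h0 0 S z 0
  | succ M ih =>
    intro S z
    by_cases hcov : cov S U z
    · rw [lst_of_empty _ _ fun hn => xt_nonempty.1 hn hcov]
      exact le_bn hp0 hp1 _ (PRE.HH_nonneg h0 _ S z)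
    have hT : (xt S z).Nonempty := xt_nonempty.2 hcov
    have hSn : S.Nonempty := nonempty_of_not_cov hcov
    set φ : St (Option W) → ℝ := fun T => ind (¬ T.Nonempty) * f (xt S z) + lst M f T with hφ
    have e1 : lst (M + 1) f (xt S z) = av fun e : Pr (Option W) => φ (hs (xt S z) e) := by
      simp only [hφ, av_add, av_mul_right, lst_succ, chi_pos hT, hz, one_mul]
    have ha : ∀ (S' : St W) (z' : List W), ¬ cov S' U z' →
        φ (xt S' z') ≤ bn (pr W) M (PRE.HH g M S' z') := fun S' z' h => by
      simp only [hφ]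
      rw [ind_neg (not_not.2 (xt_nonempty.2 h)), zero_mul, zero_add]
      exact ih S' z'
    have hb : ∀ (S' : St W) (z' : List W), cov S' U z' → φ (xt S' z') = f (xt S z) :=
      fun S' z' h => by
        have hn : ¬ (xt S' z').Nonempty := fun hn => xt_nonempty.1 hn h
        simp only [hφ]
        rw [ind_pos hn, lst_of_empty _ _ hn, one_mul, add_zero]
    have hA : (av fun e : Pr W => φ (xt (hs S e) z)) ≤ bn (pr W) M (PRE.HH g (M + 1) S z) := by
      refine le_trans ?_ (bn_mono hp0 hp1 M (cavity hW g M hSn z))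
      rw [bn_av]
      refine av_mono fun e => ?_
      by_cases h : cov (hs S e) U z
      · rw [hb _ _ h]
        refine le_bn hp0 hp1 M fun j => ?_
        by_cases hn : (hs S e).Nonempty
        · rw [ind_neg (not_not.2 hn), zero_mul, zero_add]
          exact (hf _).trans (one_le_HH hW hm hc M hn h j)
        · rw [ind_pos hn, one_mul]
          exact le_add_of_le_of_nonneg ((hle S z hcov).trans (le_GG hm j z S))
            (PRE.HH_nonneg h0 _ _ _ _)
      · exact (ha _ _ h).trans (bn_mono hp0 hp1 M fun j =>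
          le_add_of_nonneg_left (mul_nonneg (ind_nonneg _) (GG_nonneg h0 _ _ _)))
    have hB : (av fun x => φ (xt S (x :: z))) ≤
        bn (pr W) M fun j => PRE.HH g (M + 1) S z (j + 1) := by
      refine le_trans ?_ (bn_mono hp0 hp1 M (star hW h0 M S z))
      rw [bn_av]
      refine av_mono fun x => ?_
      by_cases h : cov S U (x :: z)
      · rw [hb _ _ h]
        exact le_bn hp0 hp1 M fun j => (hf _).trans (one_le_HH hW hm hc M hSn h j)
      · exact ha _ _ h
    rw [e1, hS W hW S z φ, bn_succ]
    exact add_le_add (mul_le_mul_of_nonneg_left hA (sub_nonneg.2 hp1))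
      (mul_le_mul_of_nonneg_left hB hp0)

end Pool.Agent.MP_81f5b7_pr.G1
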