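import Pool.Agent.MP_81f5b7_pr.G1.Spec

/-! Letters with and without the new vertex. -/

set_option autoImplicit false

namespace Pool.Agent.MP_81f5b7_pr.G1

open Finset Filter H42 H42.TRI

namespace SPLIT

variable {W : Type}

theorem cut_ss (S : St W) (z : List W) (x y : W) :
    cut (xt S z) (some x) (some y) = xt (cut S x y) z := by
  ext σ
  simp only [cut, xt, Set.mem_ofPred_eq]
  tauto

theorem cut_ns (S : St W) (z : List W) (x : W) :
    cut (xt S z) none (some x) = xt S (x :: z) := by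
  ext σ
  simp only [cut, xt, Set.mem_ofPred_eq, List.forall_mem_cons]
  tauto

theorem cut_sn (S : St W) (z : List W) (x : W) :
    cut (xt S z) (some x) none = xt S (x :: z) := by
  ext σ
  simp only [cut, xt, Set.mem_ofPred_eq, List.forall_mem_cons]
  constructor
  · rintro ⟨⟨h1, h2⟩, h3⟩
    exact ⟨h1, fun h => h3 h.symm, h2⟩
  · rintro ⟨h1, h3, h2⟩
    exact ⟨⟨h1, h2⟩, fun h => h3 h.symm⟩

end SPLIT

theorem rowSPLIT : RowSPLIT := by
  intro W _ _ hW S z φ
  have h2 : (2 : ℝ) ≤ Fintype.card W := by exact_mod_cast hW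
  have e1 := av_Pr (V := Option W) fun x y => φ (cut (xt S z) x y)
  have e2 := av_Pr (V := W) fun x y => φ (xt (cut S x y) z)
  have e3 : (av fun e : Pr (Option W) => φ (hs (xt S z) e)) =
      av fun e : Pr (Option W) => φ (cut (xt S z) e.1.1 e.1.2) := rfl
  have e4 : (av fun e : Pr W => φ (xt (hs S e) z)) =
      av fun e : Pr W => φ (xt (cut S e.1.1 e.1.2) z) := rfl
  rw [e3, e4, e1, e2, av, pr]
  simp only [Fintype.sum_option, SPLIT.cut_ss, SPLIT.cut_ns, SPLIT.cut_sn, sum_add_distrib,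
    Fintype.card_option, Nat.cast_add, Nat.cast_one]
  have a1 : (Fintype.card W : ℝ) ≠ 0 := by linarith
  have a2 : (Fintype.card W : ℝ) - 1 ≠ 0 := by linarith
  have a3 : (Fintype.card W : ℝ) + 1 ≠ 0 := by linarith
  have a4 : (Fintype.card W : ℝ) + 1 - 1 = Fintype.card W := by ring
  rw [a4]
  field_simp
  ring

end Pool.Agent.MP_81f5b7_pr.G1
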