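import Pool.Agent.MP_81f5b7_pr.G1.Spec

/-! The recursion in the number of vertices. -/

set_option autoImplicit false

namespace Pool.Agent.MP_81f5b7_pr.G1

open Finset Filter H42 H42.TRI

namespace STEP

theorem bn_const (p : ℝ) (M : ℕ) (c : ℝ) : bn p M (fun _ => c) = c := by
  induction M with
  | zero => rfl
  | succ M ih => simp only [bn, ih]; ring

theorem bn_add (p : ℝ) (M : ℕ) (f g : ℕ → ℝ) :
    bn p M (fun j => f j + g j) = bn p M f + bn p M g := by
  induction M generalizing f g with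
  | zero => rfl
  | succ M ih => simp only [bn, ih]; ring

theorem bn_mul (p : ℝ) (M : ℕ) (c : ℝ) (f : ℕ → ℝ) :
    bn p M (fun j => c * f j) = c * bn p M f := by
  induction M generalizing f with
  | zero => rfl
  | succ M ih => simp only [bn, ih]; ring

theorem bn_mono {p : ℝ} (h0 : 0 ≤ p) (h1 : p ≤ 1) (M : ℕ) {f g : ℕ → ℝ} (h : ∀ j, f j ≤ g j) :
    bn p M f ≤ bn p M g := by
  induction M generalizing f g with
  | zero => exact h 0
  | succ M ih =>
    simp only [bn]
    exact add_le_add (mul_le_mul_of_nonneg_left (ih h) (by linarith))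
      (mul_le_mul_of_nonneg_left (ih fun j => h (j + 1)) h0)

theorem bn_id (p : ℝ) (M : ℕ) : bn p M (fun j => (j : ℝ)) = p * M := by
  induction M with
  | zero => simp [bn]
  | succ M ih =>
    have e : (fun j : ℕ => ((j + 1 : ℕ) : ℝ)) = fun j : ℕ => (j : ℝ) + 1 := by
      funext j; push_cast; ring
    simp only [bn]
    rw [e, bn_add, ih, bn_const]; push_cast; ring

section Col

variable {V : Type} [Fintype V] [DecidableEq V]

theorem win_add (K : ℕ) (f g : St V → ℝ) (S : St V) :
    win K (fun T => f T + g T) S = win K f S + win K g S := by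
  simp only [win, it_fun_add, sum_add_distrib, add_div]

theorem win_mul (K : ℕ) (c : ℝ) (f : St V → ℝ) (S : St V) :
    win K (fun T => c * f T) S = c * win K f S := by
  simp only [win, it_mul_left, ← mul_sum, mul_div_assoc]

theorem win_mono_inv {I : St V → Prop} (hI : ∀ T e, I T → I (gs T e)) (K : ℕ) {f g : St V → ℝ}
    (h : ∀ T, I T → f T ≤ g T) {S : St V} (hS : I S) : win K f S ≤ win K g S :=
  div_le_div_of_nonneg_right (sum_le_sum fun _ _ => it_mono_inv gs hI _ h hS) (Nat.cast_nonneg _)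

theorem win_mono (K : ℕ) {f g : St V → ℝ} (h : ∀ T, f T ≤ g T) (S : St V) :
    win K f S ≤ win K g S :=
  win_mono_inv (I := fun _ => True) (fun _ _ _ => trivial) K (fun T _ => h T) trivial

theorem win_const (h : 2 ≤ Fintype.card V) {K : ℕ} (hK : 1 ≤ K) (c : ℝ) (S : St V) :
    win K (fun _ => c) S = c := by
  have := nonempty_Pr h
  have : (K : ℝ) ≠ 0 := by positivity
  simp only [win, it_const, sum_const, card_range, nsmul_eq_mul]
  field_simp

theorem win_nonneg (K : ℕ) {f : St V → ℝ} (h : ∀ T, 0 ≤ f T) (S : St V) : 0 ≤ win K f S :=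
  div_nonneg (sum_nonneg fun _ _ => it_nonneg gs _ h S) (Nat.cast_nonneg _)

theorem win_le_of_sm (h : 2 ≤ Fintype.card V) (K : ℕ) {f : St V → ℝ} {c : ℝ}
    (hc : ∀ T, sm gs K f T ≤ c) (S : St V) : win K f S ≤ c / K := by
  have := nonempty_Pr h
  refine div_le_div_of_nonneg_right ?_ (Nat.cast_nonneg _)
  have e : ∑ m ∈ range K, it gs (K + m) f S = it gs K (sm gs K f) S := by
    have h1 := sm_split gs K K f S
    have h2 : sm gs (K + K) f S = sm gs K f S + ∑ m ∈ range K, it gs (K + m) f S :=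
      sum_range_add _ _ _
    linarith
  rw [e]
  exact (it_mono gs K hc S).trans_eq (it_const gs K c S)

theorem EL_win (j K : ℕ) (f : St V → List V → ℝ) (S : St V) :
    EL j (fun y => win K (fun T => f T y) S) = win K (fun T => EL j (f T)) S := by
  simp only [win, div_eq_mul_inv, EL_mul_right, EL_sum]
  congr 1
  exact sum_congr rfl fun m _ => EL_comm _ _ _

theorem lst_add (M : ℕ) (f g : St V → ℝ) (S : St V) :
    lst M (fun T => f T + g T) S = lst M f S + lst M g S := by
  simp only [lst, mul_add, sm_fun_add]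

theorem lst_mul (M : ℕ) (c : ℝ) (f : St V → ℝ) (S : St V) :
    lst M (fun T => c * f T) S = c * lst M f S := by
  unfold lst
  rw [← sm_mul_left]
  congr 1; funext T; ring

theorem lst_mono (M : ℕ) {f g : St V → ℝ} (h : ∀ T, T.Nonempty → f T ≤ g T) (S : St V) :
    lst M f S ≤ lst M g S := by
  refine sm_mono hs M (fun T => ?_) S
  by_cases hT : T.Nonempty
  · exact mul_le_mul_of_nonneg_left (h T hT) (mul_nonneg (chi_nonneg T) (hz_nonneg T))
  · have : chi T = 0 := ind_neg hT
    simp [this]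

theorem lst_le (h : 2 ≤ Fintype.card V) (M : ℕ) {f : St V → ℝ} {c : ℝ} (hc : 0 ≤ c)
    (hf : ∀ T, f T ≤ c) (S : St V) : lst M f S ≤ c := by
  refine (lst_mono M (g := fun _ => c) (fun T _ => hf T) S).trans ?_
  have e : lst M (fun _ => c) S = c * sm hs M (fun T => chi T * hz T) S := by
    unfold lst
    rw [← sm_mul_left]
    congr 1; funext T; ring
  rw [e]
  exact mul_le_of_le_one_right hc (sm_hz_le h M S)

/-- the functional used throughout -/
noncomputable def La (M K : ℕ) (f : St V → ℝ) : ℝ := lst M (win K f) Set.univ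

theorem La_add (M K : ℕ) (f g : St V → ℝ) :
    La M K (fun T => f T + g T) = La M K f + La M K g := by
  unfold La
  rw [← lst_add]
  congr 1; funext T; exact win_add K f g T

theorem La_mul (M K : ℕ) (c : ℝ) (f : St V → ℝ) :
    La M K (fun T => c * f T) = c * La M K f := by
  unfold La
  rw [← lst_mul]
  congr 1; funext T; exact win_mul K c f T

theorem La_mono (M K : ℕ) {f g : St V → ℝ} (h : ∀ T, T.Nonempty → f T ≤ g T) :
    La M K f ≤ La M K g :=
  lst_mono M (fun _ hT => win_mono_inv (I := fun T => T.Nonempty)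
    (fun _ e h => gs_nonempty h e) K h hT) _

theorem La_const (h : 2 ≤ Fintype.card V) (M : ℕ) {K : ℕ} (hK : 1 ≤ K) {c : ℝ} (hc : 0 ≤ c) :
    La M K (fun _ : St V => c) ≤ c :=
  lst_le h M hc (fun T => (win_const h hK c T).le) _

theorem bn_La (p : ℝ) (N M K : ℕ) (f : ℕ → St V → ℝ) :
    bn p N (fun j => La M K (f j)) = La M K fun T => bn p N fun j => f j T := by
  induction N generalizing f with
  | zero => rfl
  | succ N ih =>
    simp only [bn]
    rw [La_add, La_mul, La_mul, ih f, ih fun j => f (j + 1)]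

omit [DecidableEq V] in
theorem XX_nonneg (δ : ℝ) (S : St V) (z : List V) : 0 ≤ XX δ S z := by
  induction z with
  | nil => exact le_rfl
  | cons x z ih => exact add_nonneg (ind_nonneg _) ih

omit [DecidableEq V] in
theorem Gt_nonneg (δ : ℝ) (S : St V) (z : List V) : 0 ≤ Gt δ S z :=
  add_nonneg (add_nonneg (add_nonneg (ind_nonneg _) (ind_nonneg _)) (ind_nonneg _))
    (XX_nonneg δ S z)

omit [DecidableEq V] in
theorem Gt_cons (δ : ℝ) (S : St V) (x : V) (z : List V) : Gt δ S z ≤ Gt δ S (x :: z) := by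
  have h1 : ind (Two δ S z) ≤ ind (Two δ S (x :: z)) :=
    ind_mono fun ⟨a, b, u, hu, v, hv, c⟩ =>
      ⟨a, b, u, List.mem_cons_of_mem _ hu, v, List.mem_cons_of_mem _ hv, c⟩
  have h2 : XX δ S z ≤ XX δ S (x :: z) := le_add_of_nonneg_left (ind_nonneg _)
  unfold Gt
  linarith

omit [Fintype V] [DecidableEq V] in
theorem nonempty_of_not_cov {S : St V} {z : List V} (h : ¬ cov S U z) : S.Nonempty := by
  by_contra hS
  exact h fun σ hσ => (hS ⟨σ, hσ⟩).elim

omit [Fintype V] [DecidableEq V] in
theorem xt_univ : xt (Set.univ : St V) [] = Set.univ := by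
  ext σ; simp [xt]

omit [DecidableEq V] in
theorem pr_nonneg : 0 ≤ pr V := by unfold pr; positivity

/-- the coupling bound -/
theorem couple (hPRE : RowPRE) (hPOST : RowPOST) (hKEY : RowKEY) (h : 2 ≤ Fintype.card V)
    {δ : ℝ} (hδ : 0 < δ) {K : ℕ} (hK : 1 ≤ K) (M : ℕ) :
    lst M (win K fun T => ind (Fz δ T)) (Set.univ : St (Option V)) ≤
      bn (pr V) M fun j => La M K (fun T : St V => EL j (Gt δ T)) + 2 * K * pr V +
        al (M - j) (Set.univ : St V) := by
  have hO : 2 ≤ Fintype.card (Option V) := by rw [Fintype.card_option]; omega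
  have hp : 0 ≤ pr V := pr_nonneg
  have hKp : (0 : ℝ) ≤ 2 * K * pr V := by positivity
  have hK0 : (0 : ℝ) < K := by positivity
  have := nonempty_of_two h
  have h1 := hPRE V h (win K fun T => ind (Fz δ T))
    (fun S z => win K (fun T => Gt δ T z) S + 2 * K * pr V)
    (fun T => (win_mono K (fun T => ind_le_one _) T).trans_eq (win_const hO hK 1 T))
    (fun S z => add_nonneg (win_nonneg K (fun T => Gt_nonneg δ T z) S) hKp)
    (fun S x z => add_le_add (win_mono K (fun T => Gt_cons δ T x z) S) le_rfl)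
    (fun S z hS hc => by
      have := win_mono_inv (I := fun T : St V => T.Nonempty ∧ cov T U z)
        (fun T e hT => ⟨gs_nonempty hT.1 e, cov_mono (gs_subset T e) hT.2⟩) K
        (f := fun _ => (1 : ℝ)) (g := fun T => Gt δ T z)
        (fun T hT => (hKEY V h δ T z hδ hT.1).1 hT.2) ⟨hS, hc⟩
      rw [win_const h hK] at this
      linarith)
    (fun S z hc => by
      have h2 : ∀ m ∈ range K, it gs (K + m) (fun T => ind (Fz δ T)) (xt S z) ≤
          it gs (K + m) (fun T => Gt δ T z) S + 2 * K * pr V := fun m hm => by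
        have h3 := hPOST V h z (fun T => ind (Fz δ T)) (fun T => Gt δ T z)
          (fun T => ind_le_one _) (fun T => Gt_nonneg δ T z)
          (fun T hT hc => (hKEY V h δ T z hδ hT).1 hc)
          (fun T hc => (hKEY V h δ T z hδ (nonempty_of_not_cov hc)).2 hc) (K + m) S hc
        have h4 : ((K + m : ℕ) : ℝ) ≤ 2 * K := by
          have := mem_range.1 hm
          exact_mod_cast (by omega : K + m ≤ 2 * K)
        have := mul_le_mul_of_nonneg_right h4 hp
        linarith
      have h5 := sum_le_sum h2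
      rw [sum_add_distrib, sum_const, card_range, nsmul_eq_mul] at h5
      unfold win
      rw [div_add' _ _ _ hK0.ne']
      exact div_le_div_of_nonneg_right (by linarith) hK0.le)
    M Set.univ []
  rw [xt_univ] at h1
  have hp1 : pr V ≤ 1 := by
    unfold pr
    have : (2 : ℝ) ≤ Fintype.card V := by exact_mod_cast h
    rw [div_le_one (by linarith)]; linarith
  refine h1.trans (bn_mono hp hp1 M fun j => add_le_add ?_ le_rfl)
  have e : (fun T : St V => EL j fun y => win K (fun T => Gt δ T (y ++ [])) T + 2 * K * pr V) =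
      fun T => win K (fun T => EL j (Gt δ T)) T + 2 * K * pr V := by
    funext T
    simp only [List.append_nil]
    rw [EL_add, EL_const, EL_win]
  rw [e, lst_add]
  exact add_le_add le_rfl (lst_le h M hKp (fun _ => le_rfl) _)

/-- the majorant, split -/
theorem split (hDEC : RowDEC) (hEXC : RowEXC) (h : 2 ≤ Fintype.card V)
    {δ : ℝ} (hδ : 0 < δ) (K M j : ℕ) :
    La M K (fun T : St V => EL j (Gt δ T)) ≤ La M K (fun T : St V => ind (¬ Tri T δ)) +
      1 / δ ^ 4 / K + La M K (fun T : St V => EL j fun z => ind (Two δ T z)) +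
        1 / δ ^ 2 / K * j := by
  have := nonempty_of_two h
  have e : (fun T : St V => EL j (Gt δ T)) = fun T => ind (¬ Tri T δ) + ind (¬ Dec δ T) +
      (EL j fun z => ind (Two δ T z)) + EL j (XX δ T) := by
    funext T
    unfold Gt
    rw [EL_add, EL_add, EL_const]
  rw [e, La_add, La_add, La_add]
  have h1 : La M K (fun T : St V => ind (¬ Dec δ T)) ≤ 1 / δ ^ 4 / K :=
    lst_le h M (by positivity) (fun T => win_le_of_sm h K (fun S => hDEC V h δ K S hδ) T) _
  have h2 : La M K (fun T : St V => EL j (XX δ T)) ≤ j / δ ^ 2 / K :=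
    lst_le h M (by positivity) (fun T => win_le_of_sm h K (fun S => hEXC V h δ K j S hδ) T) _
  have h3 : (j : ℝ) / δ ^ 2 / K = 1 / δ ^ 2 / K * j := by ring
  linarith

end Col

theorem pp_shift {n : ℕ} (h : 2 ≤ n) (M j : ℕ) {J : ℕ} (hJ : 1 ≤ J) :
    pp n (M - j) ≤ pp n (M - J) + 1 / J * j := by
  have hJ0 : (0 : ℝ) < J := by positivity
  by_cases hj : j ≤ J
  · have h1 : pp n (M - j) ≤ pp n (M - J) := pp_anti h (by omega)
    have h2 : (0 : ℝ) ≤ 1 / J * j := by positivity
    linarith
  · have h1 : (J : ℝ) ≤ j := by exact_mod_cast (by omega : J ≤ j)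
    have h2 : (1 : ℝ) ≤ 1 / J * j := by
      rw [one_div, inv_mul_eq_div, le_div_iff₀ hJ0]; linarith
    linarith [pp_le_one h (M - j), pp_nonneg n (M - J)]

end STEP

open STEP in
theorem rowSTEP (hSYM : RowSYM) (hPRE : RowPRE) (hPOST : RowPOST) (hKEY : RowKEY)
    (hDEC : RowDEC) (hEXC : RowEXC) (hTWO : RowTWO) : RowSTEP := by
  intro n δ K M J hn hδ hδ1 hK hJ hM
  have h : 2 ≤ Fintype.card (Fin n) := by rw [Fintype.card_fin]; omega
  have hn3 : (3 : ℝ) ≤ n := by exact_mod_cast hn
  have hM3 : (M : ℝ) ≤ 3 * n := by exact_mod_cast hM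
  have hK0 : (0 : ℝ) < K := by positivity
  have hJ0 : (0 : ℝ) < J := by positivity
  have hM0 : (0 : ℝ) ≤ M := Nat.cast_nonneg _
  have h1 := hSYM n δ K M (by omega) hδ hK
  have h2 := couple hPRE hPOST hKEY h hδ hK M
  have hpe : pr (Fin n) = 2 / ((n : ℝ) + 1) := by simp [pr]
  have hp : 0 ≤ pr (Fin n) := pr_nonneg
  have hp2 : pr (Fin n) ≤ 1 / 2 := by
    rw [hpe, div_le_div_iff₀ (by linarith) (by norm_num)]; linarith
  have hpn : pr (Fin n) ≤ 2 / n := by
    rw [hpe]; exact div_le_div_of_nonneg_left (by norm_num) (by linarith) (by linarith)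
  have hpM : pr (Fin n) * M ≤ 6 := by
    rw [hpe, div_mul_eq_mul_div, div_le_iff₀ (by linarith)]; linarith
  have hcoef : 2 * (M : ℝ) / (4.154 * (n + 1)) = pr (Fin n) * M / 4.154 := by
    rw [hpe]; field_simp
  rw [hcoef]
  generalize hpd : pr (Fin n) = p at *
  have h3 : (bn p M fun j => La M K (fun T : St (Fin n) => EL j (Gt δ T)) + 2 * K * p +
      al (M - j) (Set.univ : St (Fin n))) ≤
      bn p M fun j => (nt n δ K M + 1 / δ ^ 4 / K + 2 * K * p + pp n (M - J)) +
        La M K (fun T : St (Fin n) => EL j fun z => ind (Two δ T z)) +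
          (1 / δ ^ 2 / K + 1 / J) * j := by
    refine bn_mono hp (by linarith) M fun j => ?_
    have a1 := split hDEC hEXC h hδ K M j
    have a2 : al (M - j) (Set.univ : St (Fin n)) ≤ _ := pp_shift (n := n) (by omega) M j hJ
    have a3 : La M K (fun T : St (Fin n) => ind (¬ Tri T δ)) = nt n δ K M := rfl
    linarith
  replace h3 := h2.trans h3
  rw [bn_add, bn_add, bn_const, bn_mul, bn_id, bn_La] at h3
  have h4 : La M K (fun T : St (Fin n) => bn p M fun j => EL j fun z => ind (Two δ T z)) ≤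
      p * M / 4.154 * aa n δ K M + 6 * p ^ 2 * M := by
    refine (La_mono M K (g := fun T => p * M / 4.154 * Ph δ T + 6 * p ^ 2 * M)
      fun T hT => hTWO (Fin n) h δ p M T hδ hp hp2 hT).trans ?_
    rw [La_add, La_mul]
    exact add_le_add le_rfl (La_const h M hK (by positivity))
  have h5 : 6 * p ^ 2 * M ≤ 72 / n := by
    have a1 : p * (p * M) ≤ 2 / n * 6 := mul_le_mul hpn hpM (by positivity) (by positivity)
    have a2 : (72 : ℝ) / n = 6 * (2 / n * 6) := by ring
    nlinarith
  have h6 : 2 * K * p ≤ 4 * K / n := by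
    have a1 := mul_le_mul_of_nonneg_left hpn (by positivity : (0 : ℝ) ≤ 2 * K)
    have a2 : 4 * (K : ℝ) / n = 2 * K * (2 / n) := by ring
    linarith
  have h7 : 1 / δ ^ 2 / K ≤ 1 / δ ^ 4 / K := by
    refine div_le_div_of_nonneg_right ?_ hK0.le
    exact one_div_le_one_div_of_le (by positivity) (pow_le_pow_of_le_one hδ.le hδ1 (by norm_num))
  have h8 : (1 / δ ^ 2 / K + 1 / J) * (p * M) ≤ (1 / δ ^ 4 / K + 1 / J) * 6 :=
    mul_le_mul (by linarith) hpM (by positivity) (by positivity)
  have e1 : 16 / (K * δ ^ 4) = 16 * (1 / δ ^ 4 / K) := by field_simp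
  have e2 : 23 / (K * δ ^ 4) = 23 * (1 / δ ^ 4 / K) := by field_simp
  have e3 : (4 * (K : ℝ) + 72) / n = 4 * K / n + 72 / n := by ring
  have e4 : (6 : ℝ) / J = 6 * (1 / J) := by ring
  rw [e1] at h1
  rw [e2, e3, e4]
  linarith

end Pool.Agent.MP_81f5b7_pr.G1
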