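import Pool.Agent.MP_81f5b7_pr.G1.Kit

/-! All vertices play the role of the new vertex. -/

set_option autoImplicit false
set_option linter.style.haveILetI false

namespace Pool.Agent.MP_81f5b7_pr.G1

open Finset Filter H42 H42.TRI

namespace SYM

theorem it_semi {α β X Y : Type} [Fintype α] [Fintype β] {st : X → α → X} {st' : Y → β → Y}
    (φ : X → Y) (q : α ≃ β) (h : ∀ T a, st' (φ T) (q a) = φ (st T a)) (m : ℕ) (f : Y → ℝ)
    (S : X) : it st' m f (φ S) = it st m (fun T => f (φ T)) S := by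
  induction m generalizing S with
  | zero => rfl
  | succ m ih =>
    rw [it_succ, it_succ, ← av_equiv q]
    simp only [h, ih]

variable {V W : Type}

/-- transport of states -/
def mp (e : V ≃ W) (T : St V) : St W := {σ | (fun x => σ (e x)) ∈ T}

/-- transport of letters -/
def pe (e : V ≃ W) : Pr V ≃ Pr W where
  toFun a := ⟨(e a.1.1, e a.1.2), fun h => a.2 (e.injective h)⟩
  invFun a := ⟨(e.symm a.1.1, e.symm a.1.2), fun h => a.2 (e.symm.injective h)⟩
  left_inv a := by simp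
  right_inv a := by simp

theorem back_mem (e : V ≃ W) {T : St V} {σ : V → Fin 3} (h : σ ∈ T) :
    (fun y => σ (e.symm y)) ∈ mp e T := by
  simpa [mp] using h

theorem ne_mp (e : V ≃ W) (T : St V) : (mp e T).Nonempty ↔ T.Nonempty :=
  ⟨fun ⟨_, h⟩ => ⟨_, h⟩, fun ⟨_, h⟩ => ⟨_, back_mem e h⟩⟩

theorem mp_univ (e : V ≃ W) : mp e Set.univ = Set.univ := by
  ext σ; simp [mp]

theorem hs_mp (e : V ≃ W) (T : St V) (a : Pr V) : hs (mp e T) (pe e a) = mp e (hs T a) := rfl

theorem gs_mp (e : V ≃ W) (T : St V) (a : Pr V) : gs (mp e T) (pe e a) = mp e (gs T a) := by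
  by_cases h : (hs T a).Nonempty
  · rw [gs_of_alive h, gs_of_alive (by rw [hs_mp, ne_mp]; exact h), hs_mp]
  · rw [gs_of_dead h, gs_of_dead (by rw [hs_mp, ne_mp]; exact h)]

theorem chi_mp (e : V ≃ W) (T : St V) : chi (mp e T) = chi T := ind_congr (ne_mp e T)

theorem eqv_mp (e : V ≃ W) (T : St V) (x y : V) : eqv (mp e T) (e x) (e y) ↔ eqv T x y :=
  ⟨fun h σ hσ => by simpa using h _ (back_mem e hσ), fun h _ hσ => h _ hσ⟩

theorem dec_mp (e : V ≃ W) (T : St V) (x y : V) : dec (mp e T) (e x) (e y) ↔ dec T x y :=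
  or_congr (eqv_mp e T x y)
    ⟨fun h σ hσ => by simpa using h _ (back_mem e hσ), fun h _ hσ => h _ hσ⟩

variable [Fintype V] [Fintype W]

theorem cl_mp (e : V ≃ W) (T : St V) (x : V) : cl (mp e T) (e x) = cl T x := by
  unfold cl
  rw [← av_equiv e]
  simp only [eqv_mp]

theorem Dec_mp (e : V ≃ W) (δ : ℝ) (T : St V) : Dec δ (mp e T) ↔ Dec δ T := by
  constructor
  · intro h a b ha hb
    exact (dec_mp e T a b).1 (h _ _ (by rwa [cl_mp]) (by rwa [cl_mp]))
  · intro h a b ha hb
    obtain ⟨a, rfl⟩ := e.surjective a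
    obtain ⟨b, rfl⟩ := e.surjective b
    rw [cl_mp] at ha hb
    exact (dec_mp e T a b).2 (h a b ha hb)

variable [DecidableEq V] [DecidableEq W]

theorem hz_mp (e : V ≃ W) (T : St V) : hz (mp e T) = hz T := by
  unfold hz
  rw [← av_equiv (pe e)]
  simp only [hs_mp, ne_mp]

theorem lst_mp (e : V ≃ W) (M : ℕ) (f : St W → ℝ) (S : St V) :
    lst M f (mp e S) = lst M (fun T => f (mp e T)) S := by
  simp only [lst, sm, it_semi (mp e) (pe e) (hs_mp e), chi_mp, hz_mp]

theorem win_mp (e : V ≃ W) (K : ℕ) (f : St W → ℝ) (S : St V) :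
    win K f (mp e S) = win K (fun T => f (mp e T)) S := by
  simp only [win, it_semi (mp e) (pe e) (gs_mp e)]

theorem win_err (hD : RowDEC) (h : 2 ≤ Fintype.card V) {δ : ℝ} (hδ : 0 < δ) {K : ℕ} (hK : 1 ≤ K)
    (S : St V) : win K (fun T => ind (¬ Dec (δ / 2) T)) S ≤ 16 / (K * δ ^ 4) := by
  haveI := nonempty_Pr h
  have hK0 : (0 : ℝ) < K := by exact_mod_cast hK
  have h1 : ∑ m ∈ range K, it gs (K + m) (fun T => ind (¬ Dec (δ / 2) T)) S ≤
      1 / (δ / 2) ^ 4 := by
    have h2 := sm_split gs K K (fun T : St V => ind (¬ Dec (δ / 2) T)) S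
    have h3 : sm gs (K + K) (fun T : St V => ind (¬ Dec (δ / 2) T)) S =
        sm gs K (fun T : St V => ind (¬ Dec (δ / 2) T)) S +
          ∑ m ∈ range K, it gs (K + m) (fun T => ind (¬ Dec (δ / 2) T)) S := by
      simp only [sm]; exact sum_range_add _ _ _
    have h4 : it gs K (sm gs K fun T : St V => ind (¬ Dec (δ / 2) T)) S ≤ 1 / (δ / 2) ^ 4 :=
      (it_mono gs K (fun T => hD V h (δ / 2) K T (by positivity)) S).trans_eq (it_const gs K _ S)
    linarith
  unfold win
  rw [div_le_iff₀ hK0]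
  refine h1.trans_eq ?_
  field_simp
  norm_num

end SYM

open SYM in
theorem rowSYM (hD : RowDEC) : RowSYM := by
  intro n δ K M hn hδ hK
  have hc : 2 ≤ Fintype.card (Fin (n + 1)) := by simp; omega
  have hK0 : (0 : ℝ) < K := by exact_mod_cast hK
  have h1 : ∀ T : St (Fin (n + 1)), Ph δ T ≤
      (av fun v => ind (Fz δ (mp (finSuccEquiv' v) T))) + ind (¬ Dec (δ / 2) T) := by
    intro T
    by_cases hT : Dec (δ / 2) T
    · rw [ind_neg (not_not.2 hT), add_zero]
      refine av_mono fun v => ind_mono fun hv => ⟨?_, (Dec_mp _ _ _).2 hT⟩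
      rw [← finSuccEquiv'_at v, cl_mp]
      exact hv
    · rw [ind_pos hT]
      have h2 : Ph δ T ≤ 1 := av_le fun _ => ind_le_one _
      have h3 : 0 ≤ av fun v : Fin (n + 1) => ind (Fz δ (mp (finSuccEquiv' v) T)) :=
        av_nonneg fun _ => ind_nonneg _
      linarith
  have h2 : aa (n + 1) δ K M ≤
      lst M (fun S => (av fun v => win K (fun T => ind (Fz δ (mp (finSuccEquiv' v) T))) S) +
        16 / (K * δ ^ 4)) (Set.univ : St (Fin (n + 1))) := by
    refine lst_mono M (fun S _ => (win_mono K h1 S).trans ?_) _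
    rw [win_add, win_av]
    exact add_le_add le_rfl (win_err hD hc hδ hK S)
  refine h2.trans ?_
  rw [lst_add, lst_av]
  refine add_le_add (av_le fun v => le_of_eq ?_)
    (lst_le hc M (by positivity) (fun _ _ => le_rfl) _)
  rw [← mp_univ (finSuccEquiv' v), lst_mp]
  congr 1
  funext S
  rw [win_mp]

end Pool.Agent.MP_81f5b7_pr.G1
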