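import Pool.Agent.MP_81f5b7_pr.G1.Spec
import Pool.Agent.MP_81f5b7_pr.H42.WIN

/-! The window of the first rejection with the lower bound on the limit of its centre. -/

set_option autoImplicit false
set_option linter.style.haveILetI false

namespace Pool.Agent.MP_81f5b7_pr.G1

open Finset Filter H42

/-- The window, the limit and its lower bound. -/
def GoalW2 : Prop :=
  ∃ μ : ℕ → ℝ, (∃ c : ℝ, 2.077 ≤ c ∧ Tendsto (fun n : ℕ => μ n / n) atTop (nhds c)) ∧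
  ∀ η : ℝ, 0 < η → ∃ A : ℝ, ∀ᶠ n : ℕ in atTop, 1 - η ≤
    prob fun π : Scan n => ∃ t : ℕ, FirstRej π t ∧ |(t : ℝ) - μ n| ≤ A * (n : ℝ) ^ (3 / 4 : ℝ)

/-- Survival below the density `2.077`. -/
def RowSURV : Prop := ∀ c η : ℝ, c < 2.077 → 0 < η → ∀ᶠ n : ℕ in atTop,
  ∀ m : ℕ, (m : ℝ) ≤ c * n → 1 - η ≤ pp n m

theorem rowSURV (hT : RowTHR) (hL : RowLOW) : RowSURV := by
  obtain ⟨c₀, -, -, hT⟩ := hT
  have h0 : 2.077 ≤ c₀ := le_of_forall_pos_le_add fun ε hε =>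
    hL (c₀ + ε) fun η hη => (hT ε η hε hη).mono fun n hn m hm => (hn m).2 hm
  intro c η hc hη
  filter_upwards [hT (c₀ - c) η (by linarith) hη] with n hn m hm
  exact (hn m).1 (by rw [sub_sub_cancel]; exact hm)

namespace WIN2

open THR in
theorem low (hF : RowFM) (hC : RowCHE) {C : ℝ} (hC0 : 0 ≤ C) (hW : HW C) (hL : RowLOW) {c : ℝ}
    (hc : Tendsto (fun n : ℕ => mu n / n) atTop (nhds c)) : 2.077 ≤ c := by
  refine le_of_forall_pos_le_add fun ε hε => hL (c + ε) fun η hη => ?_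
  obtain ⟨A, hA, hCA⟩ := exA C η hC0 hη
  have e2 : ∀ᶠ n : ℕ in atTop, mu n / n < c + ε / 2 := hc.eventually_lt_const (by linarith)
  have e3 : ∀ᶠ n : ℕ in atTop, A / (ε / 2) ≤ rt n := rt_tendsto.eventually_ge_atTop _
  have e4 : ∀ᶠ n : ℕ in atTop, pp n (3 * n) < η := hF.eventually_lt_const hη
  filter_upwards [e2, e3, e4, eventually_ge_atTop 2] with n h2 h3 h4 hn m h
  have a1 : (2 : ℝ) ≤ n := by exact_mod_cast hn
  have ht := one_le_rt (n : ℝ) (by linarith)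
  have h5 := rt_four (n : ℝ) (by linarith)
  rw [div_lt_iff₀ (by linarith)] at h2
  rw [div_le_iff₀ (by linarith)] at h3
  have h6 : A * rt n ^ 3 ≤ ε / 2 * n := by
    calc A * rt n ^ 3 ≤ rt n * (ε / 2) * rt n ^ 3 :=
          mul_le_mul_of_nonneg_right h3 (by positivity)
      _ = ε / 2 * rt n ^ 4 := by ring
      _ = ε / 2 * n := by rw [h5]
  have h7 := cheb hC hW hC0 n n m A η hn le_rfl hA hCA
  by_cases hm : m < 3 * n
  · exact h7.2 hm (by linarith)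
  · exact (pa n (not_lt.mp hm)).trans h4.le

end WIN2

open FIN THR WIN in
theorem goalW2 (hY : RowY) (hV : RowVAR) (hF : RowFM) (hB : RowBGT) (hCh : RowCHE) (hI : RowBIN)
    (hLim : RowLIM) (hL : RowLINK) (hS : RowSEM) (hLow : RowLOW) : GoalW2 := by
  obtain ⟨W, hW0, hW⟩ := exW hY hV
  have c0 : ∀ n : ℕ, 0 ≤ mu n / n := fun n => div_nonneg (mu_nonneg n) (Nat.cast_nonneg n)
  have c3 : ∀ n : ℕ, mu n / n ≤ 3 := fun n =>
    div_le_of_le_mul₀ (Nat.cast_nonneg n) (by norm_num) (mu_le n)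
  obtain ⟨C, hC, hL⟩ := hL
  obtain ⟨c, hc⟩ := hLim (fun n => mu n / n) c0 c3 (super hCh hB hI hW hW0)
    (fun j ε hε => shift' hCh hB hW hW0 j ε hε)
  refine ⟨mu, ⟨c, WIN2.low hF hCh hW0 hW hLow hc, hc⟩, fun η hη => ?_⟩
  have hη' : 0 < η / (2 * C) := by positivity
  obtain ⟨A, hA, hCA⟩ := exA W (η / (2 * C)) hW0 hη'
  refine ⟨A + 1, ?_⟩
  filter_upwards [hL, hF.eventually_lt_const hη', eventually_ge_atTop 2] with n hL h3 hn
  have hn' : (2 : ℝ) ≤ n := by exact_mod_cast hn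
  haveI : Nonempty (Pr (Fin n)) := nonempty_Pr (by simpa using hn)
  rw [← rt_cube _ (by linarith)]
  have hr1 : 1 ≤ rt n ^ 3 := one_le_pow₀ (one_le_rt _ (by linarith))
  set D := rt n ^ 3 with hD
  have hAD : 0 ≤ A * D := by positivity
  set m₁ := ⌊mu n - A * D⌋₊ with hm₁
  set m₂ := min ⌈mu n + A * D⌉₊ (3 * n) with hm₂
  have h2' : (m₂ : ℝ) ≤ mu n + A * D + 1 := by
    have h : (m₂ : ℝ) ≤ ⌈mu n + A * D⌉₊ := by exact_mod_cast min_le_left _ _
    linarith [Nat.ceil_lt_add_one (add_nonneg (mu_nonneg n) hAD)]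
  have h1' : mu n - A * D < m₁ + 1 := Nat.lt_floor_add_one _
  have h24 : m₂ ≤ 4 * n := (min_le_right _ _).trans (by omega)
  have h12 : m₁ ≤ m₂ := by
    refine le_min (Nat.floor_le_of_le ?_) (Nat.floor_le_of_le ?_)
    · linarith [Nat.le_ceil (mu n + A * D)]
    · push_cast; linarith [mu_le n]
  have hp1 : 1 - η / (2 * C) ≤ pp n m₁ := by
    by_cases h : 0 ≤ mu n - A * D
    · exact (cheb hCh hW hW0 n n m₁ A _ hn le_rfl hA hCA).1 (by linarith [Nat.floor_le h])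
    · rw [hm₁, Nat.floor_of_nonpos (not_le.1 h).le, pp_zero]; linarith
  have hp2 : pp n m₂ ≤ η / (2 * C) := by
    by_cases h : ⌈mu n + A * D⌉₊ < 3 * n
    · rw [hm₂, min_eq_left h.le]
      exact (cheb hCh hW hW0 n n _ A _ hn le_rfl hA hCA).2 h (Nat.le_ceil _)
    · rw [hm₂, min_eq_right (not_lt.1 h)]; exact h3.le
  have key := hL m₂ h24
    (fun π => ¬ ∃ t : ℕ, FirstRej π t ∧ |(t : ℝ) - mu n| ≤ (A + 1) * D)
    (fun l => ¬ (hr (l.take m₁)).Nonempty ∨ (hr (l.take m₂)).Nonempty) (by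
      intro π l hl hm hb
      by_contra hB
      rw [not_or, not_not] at hB
      obtain ⟨t, t1, t2, t3⟩ := exists_death l hB.1 hB.2
      refine hb ⟨t, ((hS n π l hm).2 t (hl ▸ t2)).2 t3, ?_⟩
      have t1' : (m₁ : ℝ) ≤ t := by exact_mod_cast t1
      have t2' : (t : ℝ) ≤ m₂ := by exact_mod_cast t2.le
      rw [abs_le]; constructor <;> nlinarith)
  have hE : EL m₂ (fun l : List (Pr (Fin n)) =>
      ind (¬ (hr (l.take m₁)).Nonempty ∨ (hr (l.take m₂)).Nonempty)) ≤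
      (1 - pp n m₁) + pp n m₂ := by
    refine (EL_mono _ fun l => ind_or_le _ _).trans_eq ?_
    simp only [ind_not]
    rw [EL_add, EL_sub, EL_const, EL_take h12 fun l => ind (hr l).Nonempty,
      EL_take le_rfl fun l => ind (hr l).Nonempty]
    rfl
  rw [prob_not]
  have h3 : C * (2 * (η / (2 * C))) = η := by field_simp
  have h4 := mul_le_mul_of_nonneg_left (hE.trans (show _ ≤ 2 * (η / (2 * C)) by linarith)) hC.le
  linarith

end Pool.Agent.MP_81f5b7_pr.G1
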