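import Pool.Agent.MP_81f5b7_pr.G1.ANA
import Pool.Agent.MP_81f5b7_pr.G1.DEC
import Pool.Agent.MP_81f5b7_pr.G1.EXC
import Pool.Agent.MP_81f5b7_pr.G1.IG
import Pool.Agent.MP_81f5b7_pr.G1.KEY
import Pool.Agent.MP_81f5b7_pr.G1.LOW
import Pool.Agent.MP_81f5b7_pr.G1.POST
import Pool.Agent.MP_81f5b7_pr.G1.PRE
import Pool.Agent.MP_81f5b7_pr.G1.SPLIT
import Pool.Agent.MP_81f5b7_pr.G1.STEP
import Pool.Agent.MP_81f5b7_pr.G1.SYM
import Pool.Agent.MP_81f5b7_pr.G1.TWO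
import Pool.Agent.MP_81f5b7_pr.G1.WIN2
import Pool.Agent.MP_81f5b7_pr.H42.ANC
import Pool.Agent.MP_81f5b7_pr.H42.BETA
import Pool.Agent.MP_81f5b7_pr.H42.BGT
import Pool.Agent.MP_81f5b7_pr.H42.BON
import Pool.Agent.MP_81f5b7_pr.H42.CAV
import Pool.Agent.MP_81f5b7_pr.H42.CHE
import Pool.Agent.MP_81f5b7_pr.H42.FM
import Pool.Agent.MP_81f5b7_pr.H42.IGN
import Pool.Agent.MP_81f5b7_pr.H42.LA
import Pool.Agent.MP_81f5b7_pr.H42.LC
import Pool.Agent.MP_81f5b7_pr.H42.LIM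
import Pool.Agent.MP_81f5b7_pr.H42.LINK
import Pool.Agent.MP_81f5b7_pr.H42.SEM
import Pool.Agent.MP_81f5b7_pr.H42.TRI
import Pool.Agent.MP_81f5b7_pr.H42.UNI
import Pool.Agent.MP_81f5b7_pr.H42.VAR
import Pool.Agent.MP_81f5b7_pr.H42.YY

/-! The rows put together. -/

set_option autoImplicit false

namespace Pool.Agent.MP_81f5b7_pr.G1

open H42

theorem layAll : RowLAY := rowLAY (rowLC (rowLB rowLA) (rowANC rowLA rowUNI rowBON))

theorem yAll : RowY := rowY rowCAV layAll rowBETA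

theorem ignAll : RowIGN := rowIGN yAll (rowYP rowCAV layAll) rowBETA rowFM rowTRI

theorem stepAll : RowSTEP :=
  rowSTEP (rowSYM rowDEC) (rowPRE rowSPLIT) (rowPOST rowSPLIT) rowKEY rowDEC rowEXC (rowTWO rowANA)

theorem lowAll : RowLOW := rowLOW stepAll (rowIG ignAll)

theorem thrAll : RowTHR := rowTHR yAll rowVAR rowFM rowBGT rowCHE rowBIN rowLIM

theorem survAll : RowSURV := rowSURV thrAll lowAll

theorem goalW2All : GoalW2 :=
  goalW2 yAll rowVAR rowFM rowBGT rowCHE rowBIN rowLIM rowLINK rowSEM lowAll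

end Pool.Agent.MP_81f5b7_pr.G1
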