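import Pool.Agent.MP_81f5b7_pr.G1.Spec2

/-! First moment for unbalanced colourings. -/

set_option autoImplicit false
set_option linter.style.haveILetI false

namespace Pool.Agent.MP_81f5b7_pr.G1

open Finset Filter H42

namespace CNT

variable {V : Type} [Fintype V]

/-- size of a class -/
noncomputable def sz (σ : V → Fin 3) (i : Fin 3) : ℝ := ∑ x, ind (σ x = i)

theorem sz_sum (σ : V → Fin 3) : ∑ c, sz σ c = Fintype.card V := by
  unfold sz
  rw [sum_comm]
  have : ∀ x, ∑ c, ind (σ x = c) = 1 := fun x => by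
    rw [sum_eq_single (σ x) (fun c _ hc => ind_neg (Ne.symm hc)) (by simp), ind_pos rfl]
  simp [this]

theorem pairs (σ : V → Fin 3) :
    ∑ x, ∑ y, ind (σ x ≠ σ y) = (Fintype.card V : ℝ) ^ 2 - ∑ c, sz σ c ^ 2 := by
  have e : ∀ x y, ind (σ x ≠ σ y) = 1 - ∑ c, ind (σ x = c) * ind (σ y = c) := fun x y => by
    rw [sum_eq_single (σ x) (fun c _ hc => by rw [ind_neg (Ne.symm hc), zero_mul]) (by simp),
      ind_pos rfl, one_mul, ind_not, ind_congr eq_comm]
  have h2 : ∑ x, ∑ y, ∑ c, ind (σ x = c) * ind (σ y = c) = ∑ c, sz σ c ^ 2 := by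
    simp only [sz, sq, sum_mul_sum]
    rw [sum_comm (s := (univ : Finset (Fin 3)))]
    exact sum_congr rfl fun x _ => sum_comm
  simp only [e, sum_sub_distrib, h2, sum_const, card_univ, nsmul_eq_mul, mul_one]
  ring

theorem sq_ge (σ : V → Fin 3) (i : Fin 3) {A B : ℝ} (hB : A + 2 * B = 1)
    (h : 0 ≤ (A - B) * (sz σ i - A * Fintype.card V)) :
    (A ^ 2 + 2 * B ^ 2) * (Fintype.card V : ℝ) ^ 2 ≤ ∑ c, sz σ c ^ 2 := by
  have h1 := sz_sum σ
  have hN : (0 : ℝ) ≤ Fintype.card V := Nat.cast_nonneg _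
  have key : ∀ s t u N : ℝ, s + t + u = N → 0 ≤ N → 0 ≤ (A - B) * (s - A * N) →
      (A ^ 2 + 2 * B ^ 2) * N ^ 2 ≤ s ^ 2 + t ^ 2 + u ^ 2 := by
    intro s t u N e h0 h2
    have hA : A = 1 - 2 * B := by linarith
    have h3 := mul_nonneg h0 h2
    have hu : u = N - s - t := by linarith
    subst hA hu
    nlinarith [sq_nonneg (t - (N - s - t)), sq_nonneg (s - (1 - 2 * B) * N)]
  rw [Fin.sum_univ_three] at h1 ⊢
  fin_cases i
  · exact key _ _ _ _ h1 hN h
  · have := key (sz σ 1) (sz σ 0) (sz σ 2) _ (by linarith) hN h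
    linarith
  · have := key (sz σ 2) (sz σ 0) (sz σ 1) _ (by linarith) hN h
    linarith

omit [Fintype V] in
theorem ind_mem_hr (σ : V → Fin 3) (l : List (Pr V)) :
    ind (σ ∈ hr l) = (l.map fun e => ind (σ e.1.1 ≠ σ e.1.2)).prod := by
  rw [ind_congr mem_hr]
  induction l with
  | nil => simp [ind]
  | cons a l ih => rw [List.map_cons, List.prod_cons, ← ih, ← ind_and, ind_congr List.forall_mem_cons]

variable [DecidableEq V]

theorem tilt (θ : ℝ) (i : Fin 3) :
    ∑ σ : V → Fin 3, Real.exp (θ * sz σ i) = (Real.exp θ + 2) ^ Fintype.card V := by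
  have h1 : ∀ σ : V → Fin 3, Real.exp (θ * sz σ i) = ∏ x, Real.exp (θ * ind (σ x = i)) := fun σ => by
    rw [sz, mul_sum, Real.exp_sum]
  have h2 : ∑ c : Fin 3, Real.exp (θ * ind (c = i)) = Real.exp θ + 2 := by
    rw [Fin.sum_univ_three]
    fin_cases i <;> simp [ind] <;> ring
  simp only [h1]
  rw [← h2, ← card_univ, ← prod_const, prod_univ_sum, Fintype.piFinset_univ]

theorem step (h : 2 ≤ Fintype.card V) (σ : V → Fin 3) (i : Fin 3) {A B y : ℝ} (hB : A + 2 * B = 1)
    (hy : (1 - (A ^ 2 + 2 * B ^ 2)) * Fintype.card V ≤ y * (Fintype.card V - 1))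
    (hs : 0 ≤ (A - B) * (sz σ i - A * Fintype.card V)) :
    (av fun e : Pr V => ind (σ e.1.1 ≠ σ e.1.2)) ≤ y := by
  have h0 : (2 : ℝ) ≤ Fintype.card V := by exact_mod_cast h
  rw [av_Pr (fun x y => ind (σ x ≠ σ y)), div_le_iff₀ (by nlinarith), pairs]
  have h1 : 0 ≤ ∑ x, ind (σ x ≠ σ x) := sum_nonneg fun _ _ => ind_nonneg _
  have h2 := sq_ge σ i hB hs
  have h3 := mul_le_mul_of_nonneg_left hy (show (0 : ℝ) ≤ Fintype.card V by linarith)
  nlinarith

theorem bound (h : 2 ≤ Fintype.card V) (i : Fin 3) {A B y c : ℝ} (hA : 0 < A) (hB0 : 0 < B)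
    (hB : A + 2 * B = 1) (hy0 : 0 < y) (hy1 : y ≤ 1)
    (hy : (1 - (A ^ 2 + 2 * B ^ 2)) * Fintype.card V ≤ y * (Fintype.card V - 1)) {m : ℕ}
    (hm : c * Fintype.card V ≤ m) :
    EL m (fun l : List (Pr V) =>
      ind (∃ σ ∈ hr l, 0 ≤ (A - B) * (sz σ i - A * Fintype.card V))) ≤
    Real.exp (c * Real.log y - A * Real.log (A / B) + Real.log (1 / B)) ^ Fintype.card V := by
  set θ := Real.log (A / B) with hθ
  have h1 : ∀ l : List (Pr V), ind (∃ σ ∈ hr l, 0 ≤ (A - B) * (sz σ i - A * Fintype.card V)) ≤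
      ∑ σ : V → Fin 3, ind (0 ≤ (A - B) * (sz σ i - A * Fintype.card V)) * ind (σ ∈ hr l) := by
    intro l
    simp only [← ind_and]
    refine le_trans (ind_mono ?_) (ind_exists_le univ _)
    rintro ⟨σ, h1, h2⟩
    exact ⟨σ, mem_univ _, h2, h1⟩
  refine (EL_mono m h1).trans ?_
  rw [EL_sum]
  have h2 : y ^ m ≤ Real.exp (c * Real.log y * Fintype.card V) := by
    rw [← Real.exp_log hy0, ← Real.exp_nat_mul, Real.exp_log hy0]
    refine Real.exp_le_exp.2 ?_
    have := Real.log_nonpos hy0.le hy1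
    nlinarith
  have h3 : ∀ σ : V → Fin 3, EL m (fun l : List (Pr V) =>
      ind (0 ≤ (A - B) * (sz σ i - A * Fintype.card V)) * ind (σ ∈ hr l)) ≤
      Real.exp (c * Real.log y * Fintype.card V - θ * (A * Fintype.card V)) *
        Real.exp (θ * sz σ i) := by
    intro σ
    rw [EL_mul_left]
    by_cases hs : 0 ≤ (A - B) * (sz σ i - A * Fintype.card V)
    · rw [ind_pos hs, one_mul]
      simp only [ind_mem_hr]
      rw [EL_prod]
      refine (pow_le_pow_left₀ (av_nonneg fun _ => ind_nonneg _) (step h σ i hB hy hs) m).trans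
        (h2.trans ?_)
      rw [← Real.exp_add]
      refine Real.exp_le_exp.2 ?_
      have h4 : 0 ≤ θ * (sz σ i - A * Fintype.card V) := by
        rcases lt_trichotomy A B with hl | hl | hl
        · have h5 : θ ≤ 0 := Real.log_nonpos (by positivity) (by rw [div_le_one hB0]; exact hl.le)
          have h6 : sz σ i - A * Fintype.card V ≤ 0 := by
            by_contra hc; nlinarith [not_le.1 hc]
          exact mul_nonneg_of_nonpos_of_nonpos h5 h6
        · rw [hθ, hl, div_self hB0.ne', Real.log_one, zero_mul]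
        · have h5 : 0 ≤ θ := Real.log_nonneg (by rw [one_le_div hB0]; exact hl.le)
          have h6 : 0 ≤ sz σ i - A * Fintype.card V := by
            by_contra hc; nlinarith [not_le.1 hc]
          exact mul_nonneg h5 h6
      linarith
    · rw [ind_neg hs, zero_mul]; positivity
  refine (sum_le_sum fun σ _ => h3 σ).trans_eq ?_
  rw [← mul_sum, tilt, hθ, Real.exp_log (by positivity)]
  have h7 : A / B + 2 = Real.exp (Real.log (1 / B)) := by
    rw [Real.exp_log (by positivity)]; field_simp; linarith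
  rw [h7, ← Real.exp_nat_mul, ← Real.exp_nat_mul, ← Real.exp_add]
  congr 1; ring

theorem ev {A B y c : ℝ} (hA : 0 < A) (hB0 : 0 < B) (hB : A + 2 * B = 1) (hy0 : 0 < y) (hy1 : y ≤ 1)
    (hy : 1 - (A ^ 2 + 2 * B ^ 2) < y)
    (hr' : c * Real.log y - A * Real.log (A / B) + Real.log (1 / B) < 0) {η : ℝ} (hη : 0 < η) :
    ∀ᶠ n : ℕ in atTop, ∀ m : ℕ, c * n ≤ m → ∀ i : Fin 3, EL m (fun l : List (Pr (Fin n)) =>
      ind (∃ σ ∈ hr l, 0 ≤ (A - B) * (sz σ i - A * n))) ≤ η := by
  have t1 := tendsto_pow_atTop_nhds_zero_of_lt_one (Real.exp_pos _).le (Real.exp_lt_one_iff.2 hr')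
  have t2 : ∀ᶠ n : ℕ in atTop, y / (y - (1 - (A ^ 2 + 2 * B ^ 2))) ≤ (n : ℝ) :=
    tendsto_natCast_atTop_atTop.eventually_ge_atTop _
  filter_upwards [t1.eventually_lt_const hη, t2, eventually_ge_atTop 2] with n h1 h2 h3 m hm i
  rw [div_le_iff₀ (by linarith)] at h2
  have := bound (V := Fin n) (by simpa using h3) i (c := c) hA hB0 hB hy0 hy1
    (by rw [Fintype.card_fin]; linarith) (m := m) (by rw [Fintype.card_fin]; exact hm)
  rw [Fintype.card_fin] at this
  exact this.trans h1.le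

set_option exponentiation.threshold 3000 in
theorem num1 : (27 / 13 : ℝ) * Real.log (30579 / 50000) -
    (21 / 40) * Real.log ((21 / 40) / (19 / 80)) + Real.log (1 / (19 / 80)) < 0 := by
  have h : ((30579 / 50000 : ℝ) ^ 1080) * (1 / (19 / 80)) ^ 520 < ((21 / 40) / (19 / 80)) ^ 273 := by
    norm_num
  have h2 := Real.log_lt_log (by positivity) h
  rw [Real.log_mul (by positivity) (by positivity), Real.log_pow, Real.log_pow, Real.log_pow] at h2
  push_cast at h2
  linarith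

set_option exponentiation.threshold 3000 in
theorem num2 : (83 / 40 : ℝ) * Real.log (3073 / 5000) -
    (147 / 1000) * Real.log ((147 / 1000) / (853 / 2000)) + Real.log (1 / (853 / 2000)) < 0 := by
  have h : ((3073 / 5000 : ℝ) ^ 2075) * (1 / (853 / 2000)) ^ 1000 <
      ((147 / 1000) / (853 / 2000)) ^ 147 := by
    norm_num
  have h2 := Real.log_lt_log (by positivity) h
  rw [Real.log_mul (by positivity) (by positivity), Real.log_pow, Real.log_pow, Real.log_pow] at h2
  push_cast at h2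
  linarith

theorem card_eq {n : ℕ} (σ : Fin n → Fin 3) (i : Fin 3) :
    (Nat.card {v : Fin n // σ v = i} : ℝ) = sz σ i := by
  rw [Nat.card_eq_fintype_card, Fintype.card_subtype, sz, card_filter]
  push_cast
  refine sum_congr rfl fun x _ => ?_
  by_cases h : σ x = i
  · rw [if_pos h, ind_pos h]
  · rw [if_neg h, ind_neg h]

end CNT

open CNT in
theorem rowCNT : RowCNT := by
  intro η hη
  have e1 := ev (A := 21 / 40) (B := 19 / 80) (y := 30579 / 50000) (c := 27 / 13) (by norm_num)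
    (by norm_num) (by norm_num) (by norm_num) (by norm_num) (by norm_num) num1
    (η := η / 6) (by positivity)
  have e2 := ev (A := 147 / 1000) (B := 853 / 2000) (y := 3073 / 5000) (c := 83 / 40) (by norm_num)
    (by norm_num) (by norm_num) (by norm_num) (by norm_num) (by norm_num) num2
    (η := η / 6) (by positivity)
  filter_upwards [e1, e2] with n h1 h2 m hm
  have hn : (0 : ℝ) ≤ n := Nat.cast_nonneg n
  have h3 := h1 m hm
  have h4 := h2 m (by linarith)
  have h5 : ∀ l : List (Pr (Fin n)), ind (∃ σ ∈ hr l, Unb σ) ≤ ∑ i : Fin 3,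
      (ind (∃ σ ∈ hr l, 0 ≤ ((21 / 40 : ℝ) - 19 / 80) * (sz σ i - 21 / 40 * n)) +
      ind (∃ σ ∈ hr l, 0 ≤ ((147 / 1000 : ℝ) - 853 / 2000) * (sz σ i - 147 / 1000 * n))) := by
    intro l
    refine le_trans ?_ (sum_le_sum fun i _ => ind_or_le _ _)
    refine le_trans (ind_mono ?_) (ind_exists_le univ _)
    rintro ⟨σ, hσ, i, hi⟩
    rw [card_eq] at hi
    refine ⟨i, mem_univ _, hi.imp (fun h => ⟨σ, hσ, ?_⟩) fun h => ⟨σ, hσ, ?_⟩⟩ <;> nlinarith
  refine (EL_mono m h5).trans ?_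
  rw [EL_sum, Fin.sum_univ_three]
  simp only [EL_add]
  linarith [h3 0, h3 1, h3 2, h4 0, h4 1, h4 2]

end Pool.Agent.MP_81f5b7_pr.G1
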