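import Pool.Agent.MP_81f5b7_pr.G1.Spec2

/-! From orderings of all unordered pairs to scans. -/

set_option autoImplicit false

namespace Pool.Agent.MP_81f5b7_pr.G1

open Finset Filter H42

namespace ENC

variable {n : ℕ}

/-- orderings of all unordered pairs -/
abbrev Ord (n : ℕ) : Type := Sym2 (Fin n) ≃ Fin (Fintype.card (Sym2 (Fin n)))

/-- the scan lists the pairs in the order of `σ` -/
def Comp (σ : Ord n) (π : Scan n) : Prop := StrictMono fun i => σ (π i).1

theorem exists_comp (σ : Ord n) : ∃ π : Scan n, Comp σ π := by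
  let π₀ : Scan n := (Fintype.equivFin (Pair n)).symm
  let g : Fin (Fintype.card (Pair n)) → Fin (Fintype.card (Sym2 (Fin n))) := fun i => σ (π₀ i).1
  refine ⟨(Tuple.sort g).trans π₀, (Tuple.monotone_sort g).strictMono_of_injective ?_⟩
  intro i j h
  exact (Tuple.sort g).injective (π₀.injective (Subtype.ext (σ.injective h)))

theorem comp_unique {σ : Ord n} {π π' : Scan n} (h : Comp σ π) (h' : Comp σ π') : π = π' := by
  have key : ∀ ρ : Scan n, Set.range (fun i => σ (ρ i).1) = Set.range fun e : Pair n => σ e.1 :=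
    fun ρ => ρ.surjective.range_comp fun e : Pair n => σ e.1
  have e := (StrictMono.range_inj h h').1 ((key π).trans (key π').symm)
  exact Equiv.ext fun i => Subtype.ext (σ.injective (congrFun e i))

/-- the scan attached to an ordering -/
noncomputable def sc (σ : Ord n) : Scan n := (exists_comp σ).choose

theorem comp_sc (σ : Ord n) : Comp σ (sc σ) := (exists_comp σ).choose_spec

theorem sc_eq {σ : Ord n} {π : Scan n} : sc σ = π ↔ Comp σ π :=
  ⟨fun h => h ▸ comp_sc σ, fun h => comp_unique (comp_sc σ) h⟩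

open Classical in
theorem fib_le (π π' : Scan n) :
    (univ.filter fun σ : Ord n => sc σ = π).card ≤ (univ.filter fun σ : Ord n => sc σ = π').card := by
  let τ : Equiv.Perm (Sym2 (Fin n)) := Equiv.Perm.ofSubtype (π'.symm.trans π)
  have hτ : ∀ i, τ (π' i).1 = (π i).1 := fun i => by
    have := Equiv.Perm.ofSubtype_apply_coe (π'.symm.trans π) (π' i)
    rw [Equiv.trans_apply, Equiv.symm_apply_apply] at this
    exact this
  refine card_le_card_of_injOn (fun σ => τ.trans σ) (fun σ hσ => ?_) fun σ _ σ' _ h => ?_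
  · have h1 : Comp σ π := sc_eq.1 (mem_filter.1 hσ).2
    refine mem_filter.2 ⟨mem_univ _, sc_eq.2 ?_⟩
    unfold Comp at h1 ⊢
    simpa only [Equiv.trans_apply, hτ] using h1
  · refine Equiv.ext fun x => ?_
    have := congrArg (fun ρ : Ord n => ρ (τ.symm x)) h
    simpa using this

open Classical in
theorem count (Q : Scan n → Prop) (π₀ : Scan n) :
    (univ.filter fun σ : Ord n => Q (sc σ)).card =
      (univ.filter Q).card * (univ.filter fun σ : Ord n => sc σ = π₀).card := by
  rw [card_eq_sum_card_fiberwise (f := sc) (t := univ.filter Q)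
    (fun σ hσ => mem_coe.2 (mem_filter.2 ⟨mem_univ _, (mem_filter.1 (mem_coe.1 hσ)).2⟩))]
  rw [← smul_eq_mul, ← sum_const]
  refine sum_congr rfl fun π hπ => ?_
  rw [← le_antisymm (fib_le π π₀) (fib_le π₀ π)]
  congr 1
  ext σ
  simp only [mem_filter, mem_univ, true_and]
  exact ⟨fun h => h.2, fun h => ⟨h ▸ (mem_filter.1 hπ).2, h⟩⟩

theorem graph_eq {σ : Ord n} {π : Scan n} (hc : Comp σ π) {H : SimpleGraph (Fin n)}
    (hH : ∀ e : Sym2 (Fin n), ¬ e.IsDiag → (e ∈ H.edgeSet ↔ (SimpleGraph.fromEdgeSet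
      ({f : Sym2 (Fin n) | f ∈ H.edgeSet ∧ σ f < σ e} ∪ {e})).Colorable 3)) :
    graph π (Fintype.card (Pair n)) = H := by
  have key : ∀ t, t ≤ Fintype.card (Pair n) → graph π t = SimpleGraph.fromEdgeSet
      {f | f ∈ H.edgeSet ∧ ∃ i : Fin (Fintype.card (Pair n)), (i : ℕ) < t ∧ (π i).1 = f} := by
    intro t
    induction t with
    | zero => intro _; simp [graph]
    | succ t ih =>
      intro ht
      have h : t < Fintype.card (Pair n) := ht
      have e1 : {f | f ∈ H.edgeSet ∧ ∃ i : Fin (Fintype.card (Pair n)), (i : ℕ) < t ∧ (π i).1 = f} =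
          {f : Sym2 (Fin n) | f ∈ H.edgeSet ∧ σ f < σ (π ⟨t, h⟩).1} := by
        ext f
        refine and_congr_right fun hf => ⟨?_, fun hlt => ?_⟩
        · rintro ⟨i, hi, rfl⟩
          exact hc (show i < ⟨t, h⟩ from hi)
        · refine ⟨π.symm ⟨f, H.not_isDiag_of_mem_edgeSet hf⟩, ?_, by simp⟩
          have : π.symm ⟨f, H.not_isDiag_of_mem_edgeSet hf⟩ < ⟨t, h⟩ :=
            (StrictMono.lt_iff_lt hc).1 (by simpa using hlt)
          exact this
      have e2 : plus (graph π t) (π ⟨t, h⟩) = SimpleGraph.fromEdgeSet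
          ({f | f ∈ H.edgeSet ∧ ∃ i : Fin (Fintype.card (Pair n)), (i : ℕ) < t ∧ (π i).1 = f} ∪
            {(π ⟨t, h⟩).1}) := by
        rw [plus, ih h.le, SimpleGraph.fromEdgeSet_union]
      have e3 : (plus (graph π t) (π ⟨t, h⟩)).Colorable 3 ↔ (π ⟨t, h⟩).1 ∈ H.edgeSet := by
        rw [e2, e1]; exact (hH _ (π ⟨t, h⟩).2).symm
      rw [graph, dif_pos h]
      split_ifs with hcol
      · rw [e2]
        congr 1
        ext f
        simp only [Set.mem_union, Set.mem_ofPred_eq, Set.mem_singleton_iff]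
        constructor
        · rintro (⟨hf, i, hi, e⟩ | rfl)
          · exact ⟨hf, i, by omega, e⟩
          · exact ⟨e3.1 hcol, ⟨t, h⟩, Nat.lt_succ_self t, rfl⟩
        · rintro ⟨hf, i, hi, e⟩
          rcases Nat.lt_succ_iff_lt_or_eq.1 hi with hi | hi
          · exact Or.inl ⟨hf, i, hi, e⟩
          · right; rw [← e]; congr 2; exact Fin.ext hi
      · rw [ih h.le]
        congr 1
        ext f
        simp only [Set.mem_ofPred_eq]
        constructor
        · rintro ⟨hf, i, hi, e⟩
          exact ⟨hf, i, by omega, e⟩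
        · rintro ⟨hf, i, hi, e⟩
          rcases Nat.lt_succ_iff_lt_or_eq.1 hi with hi | hi
          · exact ⟨hf, i, hi, e⟩
          · exfalso
            have : i = ⟨t, h⟩ := Fin.ext hi
            rw [this] at e
            exact hcol (e3.2 (e ▸ hf))
  rw [key _ le_rfl]
  conv_rhs => rw [← SimpleGraph.fromEdgeSet_edgeSet H]
  congr 1
  ext f
  exact ⟨fun h => h.1, fun hf => ⟨hf, π.symm ⟨f, H.not_isDiag_of_mem_edgeSet hf⟩, Fin.is_lt _, by simp⟩⟩

end ENC

open ENC in
theorem rowENC : RowENC := by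
  classical
  intro n P
  let π₀ : Scan n := (Fintype.equivFin (Pair n)).symm
  have c1 := count (fun π : Scan n => P (graph π (Fintype.card (Pair n)))) π₀
  have c2 := count (fun _ : Scan n => True) π₀
  simp only [filter_true, card_univ] at c2
  have hpos : 0 < Fintype.card (Ord n) := Fintype.card_pos_iff.2 ⟨Fintype.equivFin _⟩
  have hc : ((univ.filter fun σ : Ord n => sc σ = π₀).card : ℝ) ≠ 0 := by
    have : (univ.filter fun σ : Ord n => sc σ = π₀).card ≠ 0 := fun h => by
      rw [h, mul_zero] at c2; omega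
    exact_mod_cast this
  unfold prob
  rw [Nat.card_eq_fintype_card, Nat.card_eq_fintype_card, Nat.card_eq_fintype_card,
    Nat.card_eq_fintype_card, Fintype.card_subtype, Fintype.card_subtype]
  rw [← mul_div_mul_right _ (Fintype.card (Scan n) : ℝ) hc, ← Nat.cast_mul, ← Nat.cast_mul, ← c2]
  refine div_le_div_of_nonneg_right (Nat.cast_le.2 ?_) (Nat.cast_nonneg _)
  refine le_trans (card_le_card fun σ hσ => ?_) (c1.le.trans (le_of_eq ?_))
  · obtain ⟨H, hH, hP⟩ := (mem_filter.1 hσ).2
    refine mem_filter.2 ⟨mem_univ _, ?_⟩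
    rw [graph_eq (comp_sc σ) hH]; exact hP
  · congr

end Pool.Agent.MP_81f5b7_pr.G1
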