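import Pool.Agent.MP_81f5b7_pr.G1.All
import Pool.Agent.MP_81f5b7_pr.G1.CNT
import Pool.Agent.MP_81f5b7_pr.G1.ENC

/-! Class sizes of the final graph. -/

set_option autoImplicit false
set_option linter.style.haveILetI false

namespace Pool.Agent.MP_81f5b7_pr.G1

open Finset Filter H42

namespace CLS

theorem graph_le_succ {n : ℕ} (π : Scan n) (t : ℕ) : graph π t ≤ graph π (t + 1) := by
  rw [graph]
  split_ifs
  · exact le_sup_left
  · exact le_rfl
  · exact le_rfl

theorem graph_stable {n : ℕ} (π : Scan n) (k : ℕ) :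
    graph π (Fintype.card (Pair n) + k) = graph π (Fintype.card (Pair n)) := by
  induction k with
  | zero => rfl
  | succ k ih => rw [← add_assoc, graph, dif_neg (by omega), ih]

theorem graph_le_final {n : ℕ} (π : Scan n) (t : ℕ) :
    graph π t ≤ graph π (Fintype.card (Pair n)) := by
  have h := monotone_nat_of_le_succ (graph_le_succ π) (Nat.le_add_left t (Fintype.card (Pair n)))
  rwa [graph_stable] at h

end CLS

open CLS in
theorem classes (hS : RowSURV) (hC : RowCNT) (hL : RowLINK) (hM : RowSEM) :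
    Tendsto (fun n : ℕ => prob fun π : Scan n =>
      ∃ c : (graph π (Fintype.card (Pair n))).Coloring (Fin 3), Unb fun v => c v) atTop (nhds 0) := by
  obtain ⟨C, hC0, hL⟩ := hL
  rw [Metric.tendsto_nhds]
  intro η hη
  have hη' : 0 < η / (3 * C) := by positivity
  filter_upwards [hS 2.07695 _ (by norm_num) hη', hC _ hη', hL, eventually_ge_atTop 100000]
    with n h1 h2 h3 hn
  have hn' : (100000 : ℝ) ≤ n := by exact_mod_cast hn
  haveI : Nonempty (Pr (Fin n)) := nonempty_Pr (by simp; omega)
  set m := ⌈(27 / 13 : ℝ) * n⌉₊ with hm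
  have m1 : (27 / 13 : ℝ) * n ≤ m := Nat.le_ceil _
  have m2 : (m : ℝ) < (27 / 13 : ℝ) * n + 1 := Nat.ceil_lt_add_one (by positivity)
  have m4 : m ≤ 4 * n := by
    have : (m : ℝ) ≤ 4 * n := by linarith
    exact_mod_cast this
  have key := h3 m m4
    (fun π => ∃ c : (graph π (Fintype.card (Pair n))).Coloring (Fin 3), Unb fun v => c v)
    (fun l => ¬ (hr l).Nonempty ∨ ∃ σ ∈ hr l, Unb σ) (by
      rintro π l hl hma ⟨c, hc⟩
      by_cases ha : (hr l).Nonempty
      · refine Or.inr ⟨_, ?_, hc⟩
        have e := (hM n π l hma).1 l.length le_rfl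
        rw [List.take_length, gr_of_alive ha] at e
        rw [e]
        exact fun x y hxy => c.valid (graph_le_final π _ hxy)
      · exact Or.inl ha)
  have hE : EL m (fun l : List (Pr (Fin n)) => ind (¬ (hr l).Nonempty ∨ ∃ σ ∈ hr l, Unb σ)) ≤
      (1 - pp n m) + η / (3 * C) := by
    refine (EL_mono _ fun l => ind_or_le _ _).trans ?_
    simp only [ind_not]
    rw [EL_add, EL_sub, EL_const]
    exact add_le_add le_rfl (h2 m m1)
  have h4 := h1 m (by linarith)
  rw [Real.dist_eq, sub_zero, abs_of_nonneg (FIN.prob_nonneg _)]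
  have h5 : C * (2 * (η / (3 * C))) = 2 / 3 * η := by field_simp
  have h6 := mul_le_mul_of_nonneg_left (hE.trans (show _ ≤ 2 * (η / (3 * C)) by linarith)) hC0.le
  linarith

theorem classesAll : Tendsto (fun n : ℕ => prob fun π : Scan n =>
    ∃ c : (graph π (Fintype.card (Pair n))).Coloring (Fin 3), Unb fun v => c v) atTop (nhds 0) :=
  classes survAll rowCNT rowLINK rowSEM

end Pool.Agent.MP_81f5b7_pr.G1
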