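import Pool.Agent.MP_81f5b7_pr.G1.Spec

/-! Basic lemmas on binomial averages, last live states, windows and the extra vertex. -/

set_option autoImplicit false
set_option linter.style.haveILetI false

namespace Pool.Agent.MP_81f5b7_pr.G1

open Finset Filter H42 H42.TRI

section bn
variable {p : ℝ}

theorem bn_zero (h : ℕ → ℝ) : bn p 0 h = h 0 := rfl
theorem bn_succ (M : ℕ) (h : ℕ → ℝ) :
    bn p (M + 1) h = (1 - p) * bn p M h + p * bn p M fun j => h (j + 1) := rfl
theorem bn_const (M : ℕ) (c : ℝ) : bn p M (fun _ => c) = c := by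
  induction M with
  | zero => rfl
  | succ M ih => rw [bn_succ, ih]; ring
theorem bn_mono (h0 : 0 ≤ p) (h1 : p ≤ 1) (M : ℕ) {f g : ℕ → ℝ} (h : ∀ j, f j ≤ g j) :
    bn p M f ≤ bn p M g := by
  induction M generalizing f g with
  | zero => exact h 0
  | succ M ih =>
    rw [bn_succ, bn_succ]
    exact add_le_add (mul_le_mul_of_nonneg_left (ih h) (sub_nonneg.2 h1))
      (mul_le_mul_of_nonneg_left (ih fun j => h (j + 1)) h0)
theorem bn_le (h0 : 0 ≤ p) (h1 : p ≤ 1) (M : ℕ) {f : ℕ → ℝ} {c : ℝ} (h : ∀ j, f j ≤ c) :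
    bn p M f ≤ c := (bn_mono h0 h1 M h).trans_eq (bn_const M c)
theorem le_bn (h0 : 0 ≤ p) (h1 : p ≤ 1) (M : ℕ) {f : ℕ → ℝ} {c : ℝ} (h : ∀ j, c ≤ f j) :
    c ≤ bn p M f := (bn_const (p := p) M c).symm.trans_le (bn_mono h0 h1 M h)
theorem bn_add (M : ℕ) (f g : ℕ → ℝ) : bn p M (fun j => f j + g j) = bn p M f + bn p M g := by
  induction M generalizing f g with
  | zero => rfl
  | succ M ih => simp only [bn_succ, ih]; ring
theorem bn_sub (M : ℕ) (f g : ℕ → ℝ) : bn p M (fun j => f j - g j) = bn p M f - bn p M g := by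
  induction M generalizing f g with
  | zero => rfl
  | succ M ih => simp only [bn_succ, ih]; ring
theorem bn_mul_left (M : ℕ) (c : ℝ) (f : ℕ → ℝ) : bn p M (fun j => c * f j) = c * bn p M f := by
  induction M generalizing f with
  | zero => rfl
  | succ M ih => simp only [bn_succ, ih]; ring
theorem bn_mul_right (M : ℕ) (c : ℝ) (f : ℕ → ℝ) : bn p M (fun j => f j * c) = bn p M f * c := by
  simp only [mul_comm _ c]; exact bn_mul_left M c f
theorem bn_div (M : ℕ) (c : ℝ) (f : ℕ → ℝ) : bn p M (fun j => f j / c) = bn p M f / c := by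
  simp only [div_eq_mul_inv]; exact bn_mul_right M _ f
theorem bn_sum {ι : Type} (M : ℕ) (s : Finset ι) (f : ι → ℕ → ℝ) :
    bn p M (fun j => ∑ i ∈ s, f i j) = ∑ i ∈ s, bn p M (f i) := by
  induction M generalizing f with
  | zero => rfl
  | succ M ih => simp only [bn_succ, ih, sum_add_distrib, mul_sum]
theorem bn_av {α : Type} [Fintype α] (M : ℕ) (f : α → ℕ → ℝ) :
    bn p M (fun j => av fun a => f a j) = av fun a => bn p M (f a) := by
  simp only [av, bn_div, bn_sum]
theorem bn_id (M : ℕ) : bn p M (fun j => (j : ℝ)) = p * M := by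
  induction M with
  | zero => simp [bn_zero]
  | succ M ih =>
    rw [bn_succ, ih]
    have : bn p M (fun j => ((j + 1 : ℕ) : ℝ)) = p * M + 1 := by
      simp only [Nat.cast_add, Nat.cast_one, bn_add, bn_const, ih]
    rw [this]; push_cast; ring
theorem bn_pow (M : ℕ) (r : ℝ) : bn p M (fun j => r ^ j) = (1 - p + p * r) ^ M := by
  induction M with
  | zero => simp [bn_zero]
  | succ M ih =>
    rw [bn_succ, ih]
    simp only [pow_succ, bn_mul_right, ih]; ring
theorem bn_EL {α : Type} [Fintype α] (M m : ℕ) (f : ℕ → List α → ℝ) :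
    bn p M (fun j => EL m (f j)) = EL m fun l => bn p M fun j => f j l := by
  induction m generalizing f with
  | zero => rfl
  | succ m ih => simp only [EL_succ, bn_av, ih]
theorem bn_it {α X : Type} [Fintype α] (st : X → α → X) (M m : ℕ) (f : ℕ → X → ℝ) (S : X) :
    bn p M (fun j => it st m (f j) S) = it st m (fun T => bn p M fun j => f j T) S :=
  bn_EL M m fun j l => f j (l.foldl st S)
theorem bn_sm {α X : Type} [Fintype α] (st : X → α → X) (M m : ℕ) (f : ℕ → X → ℝ) (S : X) :
    bn p M (fun j => sm st m (f j) S) = sm st m (fun T => bn p M fun j => f j T) S := by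
  simp only [sm, bn_sum, bn_it]

end bn

section xt
variable {V : Type}

theorem mem_xt {S : St V} {z : List V} {σ : Option V → Fin 3} :
    σ ∈ xt S z ↔ (fun x => σ (some x)) ∈ S ∧ ∀ x ∈ z, σ none ≠ σ (some x) := Iff.rfl
theorem elim_mem_xt {S : St V} {z : List V} {σ : V → Fin 3} {c : Fin 3} (hσ : σ ∈ S)
    (h : ∀ x ∈ z, σ x ≠ c) : (fun o : Option V => o.elim c σ) ∈ xt S z :=
  ⟨hσ, fun x hx e => h x hx e.symm⟩
theorem xt_nonempty {S : St V} {z : List V} : (xt S z).Nonempty ↔ ¬ cov S U z := by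
  constructor
  · rintro ⟨σ, h1, h2⟩ hc
    obtain ⟨x, hx, e⟩ := hc _ h1 (σ none) (mem_univ _)
    exact h2 x hx e.symm
  · intro h
    simp only [cov, not_forall, not_exists, not_and] at h
    obtain ⟨σ, hσ, c, -, hc⟩ := h
    exact ⟨_, elim_mem_xt hσ hc⟩
theorem nonempty_of_not_cov {S : St V} {Q : Lst V} {z : List V} (h : ¬ cov S Q z) : S.Nonempty := by
  by_contra hn
  exact h fun σ hσ => absurd ⟨σ, hσ⟩ hn
theorem xt_cut (S : St V) (z : List V) (x y : V) :
    cut (xt S z) (some x) (some y) = xt (cut S x y) z := by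
  ext σ; simp only [mem_cut, mem_xt]; tauto
theorem xt_cut_none (S : St V) (z : List V) (x : V) :
    cut (xt S z) none (some x) = xt S (x :: z) := by
  ext σ; simp only [mem_cut, mem_xt, List.forall_mem_cons]; tauto
theorem xt_cut_none' (S : St V) (z : List V) (x : V) :
    cut (xt S z) (some x) none = xt S (x :: z) := by
  ext σ; simp only [mem_cut, mem_xt, List.forall_mem_cons, ne_comm (a := σ (some x))]; tauto
theorem xt_univ : xt (Set.univ : St V) [] = Set.univ := by
  ext σ; simp [mem_xt]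

end xt

section lst
variable {V : Type} [Fintype V] [DecidableEq V] {β : Type} [Fintype β]

omit [DecidableEq V] in
theorem pr_nonneg : 0 ≤ pr V := by unfold pr; positivity
omit [DecidableEq V] in
theorem pr_le_one (h : 2 ≤ Fintype.card V) : pr V ≤ 1 := by
  have h2 : (2 : ℝ) ≤ Fintype.card V := by exact_mod_cast h
  rw [pr, div_le_one (by linarith)]; linarith
theorem lst_zero (f : St V → ℝ) (S : St V) : lst 0 f S = 0 := rfl
theorem lst_succ (M : ℕ) (f : St V → ℝ) (S : St V) :
    lst (M + 1) f S = chi S * hz S * f S + av fun e => lst M f (hs S e) := sm_succ _ _ _ _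
theorem lst_add (M : ℕ) (f g : St V → ℝ) (S : St V) :
    lst M (fun T => f T + g T) S = lst M f S + lst M g S := by
  simp only [lst, mul_add, sm_fun_add]
theorem lst_mul_left (M : ℕ) (c : ℝ) (f : St V → ℝ) (S : St V) :
    lst M (fun T => c * f T) S = c * lst M f S := by
  simp only [lst, ← sm_mul_left]
  congr 1; funext T; ring
theorem lst_av (M : ℕ) (f : β → St V → ℝ) (S : St V) :
    lst M (fun T => av fun b => f b T) S = av fun b => lst M (f b) S := by
  simp only [lst, ← av_mul_left, sm_av]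
theorem lst_bn (p : ℝ) (N M : ℕ) (f : ℕ → St V → ℝ) (S : St V) :
    bn p N (fun j => lst M (f j) S) = lst M (fun T => bn p N fun j => f j T) S := by
  simp only [lst, bn_sm, bn_mul_left]
/-- only nonempty subsets of the start matter -/
theorem lst_mono' (M : ℕ) {f g : St V → ℝ} {S : St V}
    (h : ∀ T, T ⊆ S → T.Nonempty → f T ≤ g T) : lst M f S ≤ lst M g S := by
  refine sm_mono_inv hs (I := fun T => T ⊆ S) (fun T a hT => (hs_subset T a).trans hT) M
    (fun T hT => ?_) le_rfl
  by_cases hn : T.Nonempty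
  · exact mul_le_mul_of_nonneg_left (h T hT hn) (mul_nonneg (chi_nonneg T) (hz_nonneg T))
  · rw [chi, ind_neg hn]; simp
theorem lst_mono (M : ℕ) {f g : St V → ℝ} (h : ∀ T, T.Nonempty → f T ≤ g T) (S : St V) :
    lst M f S ≤ lst M g S := lst_mono' M fun T _ hn => h T hn
theorem lst_nonneg (M : ℕ) {f : St V → ℝ} (h : ∀ T, 0 ≤ f T) (S : St V) : 0 ≤ lst M f S :=
  sm_nonneg _ _ (fun T => mul_nonneg (mul_nonneg (chi_nonneg T) (hz_nonneg T)) (h T)) _
theorem lst_mono_left {M M' : ℕ} (hM : M ≤ M') {f : St V → ℝ} (h : ∀ T, 0 ≤ f T) (S : St V) :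
    lst M f S ≤ lst M' f S :=
  sm_mono_left _ hM (fun T => mul_nonneg (mul_nonneg (chi_nonneg T) (hz_nonneg T)) (h T)) _
theorem lst_of_empty (M : ℕ) (f : St V → ℝ) {S : St V} (h : ¬ S.Nonempty) : lst M f S = 0 := by
  have h0 : lst M (fun _ => (0 : ℝ) * 0) S = 0 := by rw [lst_mul_left, zero_mul]
  refine le_antisymm ((lst_mono' M fun T hT hn => ?_).trans_eq h0)
    (h0.symm.trans_le (lst_mono' M fun T hT hn => ?_)) <;> exact absurd (hn.mono hT) h
theorem lst_one (h : 2 ≤ Fintype.card V) (M : ℕ) (S : St V) :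
    lst M (fun _ => 1) S = chi S - al M S := by
  induction M generalizing S with
  | zero => rw [lst_zero, al_zero, sub_self]
  | succ M ih =>
    by_cases hS : S.Nonempty
    · rw [lst_succ, al_succ]
      simp only [ih, av_sub, av_chi h, chi_pos hS]; ring
    · rw [lst_of_empty _ _ hS, Set.not_nonempty_iff_eq_empty.1 hS, chi_empty, al_empty, sub_self]
theorem lst_const (h : 2 ≤ Fintype.card V) (M : ℕ) (c : ℝ) (S : St V) :
    lst M (fun _ => c) S = c * (chi S - al M S) := by
  rw [← lst_one h, ← lst_mul_left]; simp only [mul_one]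
theorem lst_le (h : 2 ≤ Fintype.card V) (M : ℕ) {f : St V → ℝ} {c : ℝ} (hc : 0 ≤ c)
    (hf : ∀ T, T.Nonempty → f T ≤ c) (S : St V) : lst M f S ≤ c := by
  refine (lst_mono M hf S).trans ?_
  rw [lst_const h]
  nlinarith [chi_le_one S, al_nonneg M S]

theorem win_add (K : ℕ) (f g : St V → ℝ) (S : St V) :
    win K (fun T => f T + g T) S = win K f S + win K g S := by
  simp only [win, it_fun_add, sum_add_distrib, add_div]
theorem win_mul_left (K : ℕ) (c : ℝ) (f : St V → ℝ) (S : St V) :
    win K (fun T => c * f T) S = c * win K f S := by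
  simp only [win, it_mul_left, ← mul_sum, mul_div_assoc]
theorem win_av (K : ℕ) (f : β → St V → ℝ) (S : St V) :
    win K (fun T => av fun b => f b T) S = av fun b => win K (f b) S := by
  simp only [win, it_av, ← av_sum, div_eq_mul_inv, av_mul_right]
theorem win_bn (p : ℝ) (N K : ℕ) (f : ℕ → St V → ℝ) (S : St V) :
    bn p N (fun j => win K (f j) S) = win K (fun T => bn p N fun j => f j T) S := by
  simp only [win, bn_div, bn_sum, bn_it]
theorem win_EL {α : Type} [Fintype α] (j K : ℕ) (f : List α → St V → ℝ) (S : St V) :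
    EL j (fun y => win K (f y) S) = win K (fun T => EL j fun y => f y T) S := by
  induction j generalizing f with
  | zero => rfl
  | succ j ih => simp only [EL_succ, ih, win_av]
theorem win_mono (K : ℕ) {f g : St V → ℝ} (h : ∀ T, f T ≤ g T) (S : St V) :
    win K f S ≤ win K g S :=
  div_le_div_of_nonneg_right (sum_le_sum fun _ _ => it_mono _ _ h S) (Nat.cast_nonneg _)
/-- from a nonempty start only nonempty subsets of it are visited -/
theorem win_mono' (K : ℕ) {f g : St V → ℝ} {S : St V} (hS : S.Nonempty)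
    (h : ∀ T, T ⊆ S → T.Nonempty → f T ≤ g T) : win K f S ≤ win K g S :=
  div_le_div_of_nonneg_right (sum_le_sum fun _ _ =>
    it_mono_inv gs (I := fun T => T ⊆ S ∧ T.Nonempty)
      (fun T a hT => ⟨(gs_subset T a).trans hT.1, gs_nonempty hT.2 a⟩) _
      (fun T hT => h T hT.1 hT.2) ⟨le_rfl, hS⟩) (Nat.cast_nonneg _)
theorem win_nonneg (K : ℕ) {f : St V → ℝ} (h : ∀ T, 0 ≤ f T) (S : St V) : 0 ≤ win K f S :=
  div_nonneg (sum_nonneg fun _ _ => it_nonneg _ _ h S) (Nat.cast_nonneg _)
theorem win_const (h : 2 ≤ Fintype.card V) {K : ℕ} (hK : 1 ≤ K) (c : ℝ) (S : St V) :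
    win K (fun _ => c) S = c := by
  haveI := nonempty_Pr h
  have h0 : (K : ℝ) ≠ 0 := by positivity
  simp only [win, it_const, sum_const, card_range, nsmul_eq_mul]
  field_simp
theorem win_le (h : 2 ≤ Fintype.card V) {K : ℕ} (hK : 1 ≤ K) {f : St V → ℝ} {c : ℝ}
    (hf : ∀ T, f T ≤ c) (S : St V) : win K f S ≤ c :=
  (win_mono K hf S).trans_eq (win_const h hK c S)
theorem win_eq (K : ℕ) (f : St V → ℝ) (S : St V) : win K f S = it gs K (sm gs K f) S / K := by
  have h := sm_split gs K K f S
  have h2 : sm gs (K + K) f S = sm gs K f S + ∑ m ∈ range K, it gs (K + m) f S := sum_range_add _ _ _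
  rw [win]; congr 1; linarith
/-- a bound on the sum over `K` greedy steps from every state bounds the window average -/
theorem win_le_of_sm (h : 2 ≤ Fintype.card V) (K : ℕ) {f : St V → ℝ} {B : ℝ}
    (hB : ∀ T, sm gs K f T ≤ B) (S : St V) : win K f S ≤ B / K := by
  haveI := nonempty_Pr h
  rw [win_eq]
  exact div_le_div_of_nonneg_right ((it_mono _ _ hB S).trans_eq (it_const _ _ _ _))
    (Nat.cast_nonneg _)

end lst

end Pool.Agent.MP_81f5b7_pr.G1
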