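import Pool.Agent.MP_81f5b7_pr.G1.All

/-! No pair is rejected early. -/

set_option autoImplicit false
set_option linter.style.haveILetI false

namespace Pool.Agent.MP_81f5b7_pr.G1

open Finset Filter H42

theorem noEarly (c : ℝ) (hc : c < 2.077) : Tendsto (fun n : ℕ => prob fun π : Scan n =>
    ∃ t : ℕ, (t : ℝ) ≤ c * n ∧ Rejected π t) atTop (nhds 0) := by
  obtain ⟨C, hC0, hL⟩ := rowLINK
  obtain ⟨a, ha0, hca, ha⟩ : ∃ a : ℝ, 0 ≤ a ∧ c ≤ a ∧ a < 2.077 :=
    ⟨max c 0, le_max_right _ _, le_max_left _ _, max_lt hc (by norm_num)⟩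
  rw [Metric.tendsto_nhds]
  intro η hη
  have hη' : 0 < η / (2 * C) := by positivity
  have hε : 0 < (2.077 - a) / 2 := by linarith
  filter_upwards [survAll ((a + 2.077) / 2) _ (by linarith) hη', hL, eventually_ge_atTop 2,
    tendsto_natCast_atTop_atTop.eventually_ge_atTop (1 / ((2.077 - a) / 2))] with n h1 h3 hn h2
  have hn' : (2 : ℝ) ≤ n := by exact_mod_cast hn
  haveI : Nonempty (Pr (Fin n)) := nonempty_Pr (by simpa using hn)
  rw [div_le_iff₀ hε] at h2
  set m := ⌊a * n⌋₊ + 1 with hm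
  have m1 : (m : ℝ) ≤ a * n + 1 := by
    rw [hm]; push_cast; linarith [Nat.floor_le (show 0 ≤ a * n by positivity)]
  have m4 : m ≤ 4 * n := by
    have : (m : ℝ) ≤ 4 * n := by nlinarith
    exact_mod_cast this
  have key := h3 m m4 (fun π => ∃ t : ℕ, (t : ℝ) ≤ c * n ∧ Rejected π t)
    (fun l => ¬ (hr l).Nonempty) (by
      rintro π l hl hma ⟨t, ht, hr'⟩ hal
      have h4 := (SEM.alive_iff π l hma l.length le_rfl).2 (by rwa [List.take_length])
      refine h4 t ?_ hr'
      rw [hl, hm]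
      exact Nat.lt_succ_of_le (Nat.le_floor (ht.trans (by nlinarith))))
  have hE : EL m (fun l : List (Pr (Fin n)) => ind (¬ (hr l).Nonempty)) = 1 - pp n m := by
    simp only [ind_not]
    rw [EL_sub, EL_const]; rfl
  have h4 := h1 m (by nlinarith)
  rw [Real.dist_eq, sub_zero, abs_of_nonneg (FIN.prob_nonneg _)]
  have h5 : C * (η / (2 * C)) = η / 2 := by field_simp
  have h6 := mul_le_mul_of_nonneg_left (hE.le.trans (show _ ≤ η / (2 * C) by linarith)) hC0.le
  linarith

end Pool.Agent.MP_81f5b7_pr.G1
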