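import Pool.Agent.MP_81f5b7_pr.H42.TRI

/-! Lower bound for the first rejection: definitions and rows. -/

set_option autoImplicit false

namespace Pool.Agent.MP_81f5b7_pr.G1

open Finset Filter H42 H42.TRI

/-- binomial average of `h` with `M` trials of success probability `p` -/
noncomputable def bn (p : ℝ) : ℕ → (ℕ → ℝ) → ℝ
  | 0, h => h 0
  | M + 1, h => (1 - p) * bn p M h + p * bn p M fun j => h (j + 1)

section Col

variable {V : Type}

/-- colourings with one more vertex `none` whose neighbours are the vertices of `z` -/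
def xt (S : St V) (z : List V) : St (Option V) :=
  {σ | (fun x => σ (some x)) ∈ S ∧ ∀ x ∈ z, σ none ≠ σ (some x)}

/-- the colour of `a` -/
def Qa (a : V) : Lst V := fun σ => {σ a}

variable [Fintype V]

/-- all pairs of vertices in large classes are decided -/
def Dec (δ : ℝ) (T : St V) : Prop := ∀ a b, δ ≤ cl T a → δ ≤ cl T b → dec T a b

/-- fraction of vertices in large classes -/
noncomputable def Ph (δ : ℝ) (T : St V) : ℝ := av fun x => ind (δ ≤ cl T x)

/-- the list meets two large classes of a settled state -/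
def Two (δ : ℝ) (S : St V) (z : List V) : Prop :=
  Tri S δ ∧ Dec δ S ∧ ∃ x ∈ z, ∃ y ∈ z, δ ≤ cl S x ∧ δ ≤ cl S y ∧ ¬ eqv S x y

/-- `x` completes the covering of the colour of a large class without lying in it -/
def Ex1 (δ : ℝ) (S : St V) (x : V) (z : List V) : Prop :=
  ∃ a, δ ≤ cl S a ∧ ¬ cov S (Qa a) z ∧ cov S (Qa a) (x :: z) ∧ ¬ eqv S x a

/-- number of exceptional tails of a list -/
noncomputable def XX (δ : ℝ) (S : St V) : List V → ℝ
  | [] => 0
  | x :: z => ind (Ex1 δ S x z) + XX δ S z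

/-- the majorant on the side without the new vertex -/
noncomputable def Gt (δ : ℝ) (S : St V) (z : List V) : ℝ :=
  ind (¬ Tri S δ) + ind (¬ Dec δ S) + ind (Two δ S z) + XX δ S z

/-- the new vertex lies in a large class of a settled state -/
def Fz (δ : ℝ) (T : St (Option V)) : Prop := δ ≤ cl T none ∧ Dec (δ / 2) T

variable [DecidableEq V]

/-- probability that a letter on `Option V` contains `none` -/
noncomputable def pr (V : Type) [Fintype V] : ℝ := 2 / ((Fintype.card V : ℝ) + 1)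

/-- expectation of `f` at the last live state, on the event of death within `M` steps -/
noncomputable def lst (M : ℕ) (f : St V → ℝ) (S : St V) : ℝ :=
  sm hs M (fun T => chi T * hz T * f T) S

/-- average of `f` over the greedy steps `K, ..., 2K - 1` -/
noncomputable def win (K : ℕ) (f : St V → ℝ) (S : St V) : ℝ :=
  (∑ m ∈ range K, it gs (K + m) f S) / K

end Col

/-- expected fraction of vertices in large classes shortly after the first rejection -/
noncomputable def aa (n : ℕ) (δ : ℝ) (K M : ℕ) : ℝ :=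
  lst M (win K (Ph δ)) (Set.univ : St (Fin n))

/-- probability that three classes are not frozen shortly after the first rejection -/
noncomputable def nt (n : ℕ) (δ : ℝ) (K M : ℕ) : ℝ :=
  lst M (win K fun T => ind (¬ Tri T δ)) (Set.univ : St (Fin n))

/-- Letters with and without the new vertex. -/
def RowSPLIT : Prop := ∀ (W : Type) [Fintype W] [DecidableEq W], 2 ≤ Fintype.card W →
  ∀ (S : St W) (z : List W) (φ : St (Option W) → ℝ),
    (av fun e : Pr (Option W) => φ (hs (xt S z) e)) =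
      (1 - pr W) * (av fun e : Pr W => φ (xt (hs S e) z)) + pr W * av fun x => φ (xt S (x :: z))

/-- Coupling of the greedy steps. -/
def RowPOST : Prop := ∀ (W : Type) [Fintype W] [DecidableEq W], 2 ≤ Fintype.card W →
  ∀ (z : List W) (F : St (Option W) → ℝ) (G : St W → ℝ), (∀ T, F T ≤ 1) → (∀ S, 0 ≤ G S) →
    (∀ S : St W, S.Nonempty → cov S U z → 1 ≤ G S) → (∀ S, ¬ cov S U z → F (xt S z) ≤ G S) →
    ∀ (k : ℕ) (S : St W), ¬ cov S U z → it gs k F (xt S z) ≤ it gs k G S + k * pr W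

/-- Coupling up to the first rejection. -/
def RowPRE : Prop := ∀ (W : Type) [Fintype W] [DecidableEq W], 2 ≤ Fintype.card W →
  ∀ (f : St (Option W) → ℝ) (g : St W → List W → ℝ), (∀ T, f T ≤ 1) → (∀ S z, 0 ≤ g S z) →
    (∀ S x z, g S z ≤ g S (x :: z)) → (∀ (S : St W) z, S.Nonempty → cov S U z → 1 ≤ g S z) →
    (∀ S z, ¬ cov S U z → f (xt S z) ≤ g S z) →
    ∀ (M : ℕ) (S : St W) (z : List W), lst M f (xt S z) ≤
      bn (pr W) M fun j => lst M (fun T => EL j fun y => g T (y ++ z)) S + al (M - j) S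

/-- A frozen new vertex sees two large classes. -/
def RowKEY : Prop := ∀ (W : Type) [Fintype W] [DecidableEq W], 2 ≤ Fintype.card W →
  ∀ (δ : ℝ) (S : St W) (z : List W), 0 < δ → S.Nonempty →
    (cov S U z → 1 ≤ Gt δ S z) ∧ (¬ cov S U z → ind (Fz δ (xt S z)) ≤ Gt δ S z)

/-- Undecided large classes are rare in time. -/
def RowDEC : Prop := ∀ (V : Type) [Fintype V] [DecidableEq V], 2 ≤ Fintype.card V →
  ∀ (δ : ℝ) (K : ℕ) (S : St V), 0 < δ → sm gs K (fun T => ind (¬ Dec δ T)) S ≤ 1 / δ ^ 4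

/-- Exceptional coverings are rare in time. -/
def RowEXC : Prop := ∀ (V : Type) [Fintype V] [DecidableEq V], 2 ≤ Fintype.card V →
  ∀ (δ : ℝ) (K j : ℕ) (S : St V), 0 < δ → sm gs K (fun T => EL j (XX δ T)) S ≤ j / δ ^ 2

/-- The analytic inequality. -/
def RowANA : Prop := ∀ x y z : ℝ, 0 ≤ x → 0 ≤ y → 0 ≤ z →
  1 - Real.exp (-(x + y)) - Real.exp (-(x + z)) - Real.exp (-(y + z)) +
    2 * Real.exp (-(x + y + z)) ≤ (x + y + z) / 4.154

/-- The probability of meeting two large classes. -/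
def RowTWO : Prop := ∀ (V : Type) [Fintype V] [DecidableEq V], 2 ≤ Fintype.card V →
  ∀ (δ p : ℝ) (M : ℕ) (S : St V), 0 < δ → 0 ≤ p → p ≤ 1 / 2 → S.Nonempty →
    bn p M (fun j => EL j fun z => ind (Two δ S z)) ≤ p * M / 4.154 * Ph δ S + 6 * p ^ 2 * M

/-- All vertices play the role of the new vertex. -/
def RowSYM : Prop := ∀ (n : ℕ) (δ : ℝ) (K M : ℕ), 2 ≤ n → 0 < δ → 1 ≤ K →
  aa (n + 1) δ K M ≤ lst M (win K fun T => ind (Fz δ T)) (Set.univ : St (Option (Fin n))) +
    16 / (K * δ ^ 4)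

/-- Three classes freeze, in the form used here. -/
def RowIG : Prop := ∀ η : ℝ, 0 < η → ∃ δ₀ : ℝ, 0 < δ₀ ∧ ∃ K₀ : ℕ, ∀ᶠ n : ℕ in atTop,
  ∀ (δ : ℝ) (K M : ℕ), δ ≤ δ₀ → K₀ ≤ K → M ≤ 3 * n → nt n δ K M ≤ η

/-- The recursion in the number of vertices. -/
def RowSTEP : Prop := ∀ (n : ℕ) (δ : ℝ) (K M J : ℕ), 3 ≤ n → 0 < δ → δ ≤ 1 → 1 ≤ K → 1 ≤ J →
  M ≤ 3 * n → aa (n + 1) δ K M ≤ 2 * M / (4.154 * (n + 1)) * aa n δ K M + nt n δ K M +
    23 / (K * δ ^ 4) + (4 * K + 72) / n + pp n (M - J) + 6 / J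

/-- The threshold is at least `2.077`. -/
def RowLOW : Prop := ∀ c : ℝ,
  (∀ η : ℝ, 0 < η → ∀ᶠ n : ℕ in atTop, ∀ m : ℕ, c * n ≤ m → pp n m ≤ η) → 2.077 ≤ c

end Pool.Agent.MP_81f5b7_pr.G1
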