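import Pool.Agent.MP_81f5b7_pr.H42.Kit

/-! Class sizes: rows. -/

set_option autoImplicit false

namespace Pool.Agent.MP_81f5b7_pr.G1

open Finset Filter H42

/-- From orderings of all unordered pairs, loops included, to scans. -/
def RowENC : Prop := ∀ (n : ℕ) (P : SimpleGraph (Fin n) → Prop),
  (Nat.card {σ : Sym2 (Fin n) ≃ Fin (Fintype.card (Sym2 (Fin n))) //
      ∃ H : SimpleGraph (Fin n),
        (∀ e : Sym2 (Fin n), ¬ e.IsDiag →
          (e ∈ H.edgeSet ↔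
            (SimpleGraph.fromEdgeSet
              ({f : Sym2 (Fin n) | f ∈ H.edgeSet ∧ σ f < σ e} ∪ {e})).Colorable 3)) ∧ P H} : ℝ) /
    (Nat.card (Sym2 (Fin n) ≃ Fin (Fintype.card (Sym2 (Fin n)))) : ℝ) ≤
  prob fun π : Scan n => P (graph π (Fintype.card (Pair n)))

/-- some class has at least `0.525 n` or at most `0.147 n` vertices -/
def Unb {n : ℕ} (σ : Fin n → Fin 3) : Prop :=
  ∃ i : Fin 3, (0.525 : ℝ) * n ≤ (Nat.card {v : Fin n // σ v = i} : ℝ) ∨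
    (Nat.card {v : Fin n // σ v = i} : ℝ) ≤ (0.147 : ℝ) * n

/-- First moment for unbalanced colourings. -/
def RowCNT : Prop := ∀ η : ℝ, 0 < η → ∀ᶠ n : ℕ in atTop, ∀ m : ℕ, (27 / 13 : ℝ) * n ≤ m →
  EL m (fun l : List (Pr (Fin n)) => ind (∃ σ ∈ hr l, Unb σ)) ≤ η

end Pool.Agent.MP_81f5b7_pr.G1
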