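import Pool.Agent.MP_81f5b7_pr.G1.Spec

/-! The probability of meeting two large classes. -/

set_option autoImplicit false

namespace Pool.Agent.MP_81f5b7_pr.G1

open Finset Filter H42 H42.TRI

namespace TWO

theorem bn_mono {p : ℝ} (h0 : 0 ≤ p) (h1 : p ≤ 1) (M : ℕ) {f g : ℕ → ℝ} (h : ∀ j, f j ≤ g j) :
    bn p M f ≤ bn p M g := by
  induction M generalizing f g with
  | zero => exact h 0
  | succ M ih =>
    exact add_le_add (mul_le_mul_of_nonneg_left (ih h) (by linarith))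
      (mul_le_mul_of_nonneg_left (ih fun j => h (j + 1)) h0)

theorem bn_comb (p r₁ r₂ r₃ r₄ : ℝ) (M : ℕ) (c₀ c₁ c₂ c₃ c₄ : ℝ) :
    bn p M (fun j => c₀ + c₁ * r₁ ^ j + c₂ * r₂ ^ j + c₃ * r₃ ^ j + c₄ * r₄ ^ j) =
      c₀ + c₁ * (1 - p + p * r₁) ^ M + c₂ * (1 - p + p * r₂) ^ M + c₃ * (1 - p + p * r₃) ^ M +
        c₄ * (1 - p + p * r₄) ^ M := by
  induction M generalizing c₁ c₂ c₃ c₄ with
  | zero => simp [bn]
  | succ M ih =>
    have e : (fun j => c₀ + c₁ * r₁ ^ (j + 1) + c₂ * r₂ ^ (j + 1) + c₃ * r₃ ^ (j + 1) +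
        c₄ * r₄ ^ (j + 1)) = fun j => c₀ + c₁ * r₁ * r₁ ^ j + c₂ * r₂ * r₂ ^ j +
          c₃ * r₃ * r₃ ^ j + c₄ * r₄ * r₄ ^ j := by
      funext j; ring
    rw [bn, e, ih, ih]
    ring

theorem pow_le_exp {q : ℝ} (h1 : q ≤ 1) (M : ℕ) : (1 - q) ^ M ≤ Real.exp (-(q * M)) := by
  rw [show -(q * M) = M * -q by ring, Real.exp_nat_mul]
  exact pow_le_pow_left₀ (by linarith) (by linarith [Real.add_one_le_exp (-q)]) M

theorem exp_le_pow {q : ℝ} (h0 : 0 ≤ q) (h1 : q ≤ 1) (M : ℕ) :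
    Real.exp (-(q * M)) ≤ (1 - q) ^ M + M * q ^ 2 := by
  rw [show -(q * M) = M * -q by ring, Real.exp_nat_mul]
  have ha0 := Real.exp_pos (-q)
  have ha1 : Real.exp (-q) ≤ 1 := Real.exp_le_one_iff.2 (by linarith)
  have hd : Real.exp (-q) ≤ 1 - q + q ^ 2 := by
    have h2 : Real.exp (-q) * (1 + q) ≤ 1 := by
      calc Real.exp (-q) * (1 + q) ≤ Real.exp (-q) * Real.exp q :=
            mul_le_mul_of_nonneg_left (by linarith [Real.add_one_le_exp q]) ha0.le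
        _ = 1 := by rw [← Real.exp_add]; simp
    have h3 : Real.exp (-q) * (1 + q) ≤ (1 - q + q ^ 2) * (1 + q) := by
      nlinarith [pow_nonneg h0 3]
    exact le_of_mul_le_mul_right h3 (by linarith)
  induction M with
  | zero => simp
  | succ M ih =>
    have hb0 : 0 ≤ (1 - q) ^ M := pow_nonneg (by linarith) M
    have hb1 : (1 - q) ^ M ≤ 1 := pow_le_one₀ (by linarith) (by linarith)
    have hq : 0 ≤ (M : ℝ) * q ^ 2 := by positivity
    have h4 := mul_le_mul_of_nonneg_right ih ha0.le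
    have h5 := mul_le_mul_of_nonneg_left hd hb0
    have h6 := mul_le_mul_of_nonneg_left ha1 hq
    have h7 := mul_le_mul_of_nonneg_right hb1 (sq_nonneg q)
    rw [pow_succ, pow_succ (1 - q)]
    push_cast
    nlinarith

theorem miss {V : Type} (P : V → Prop) (z : List V) :
    ind (∀ x ∈ z, ¬ P x) = (z.map fun x => 1 - ind (P x)).prod := by
  induction z with
  | nil => exact ind_pos (by simp)
  | cons a z ih =>
    rw [List.map_cons, List.prod_cons, ← ih, ← ind_not, ← ind_and]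
    exact ind_congr List.forall_mem_cons

theorem EL_miss {V : Type} [Fintype V] [Nonempty V] (P : V → Prop) (j : ℕ) :
    EL j (fun z : List V => ind (∀ x ∈ z, ¬ P x)) = (1 - av fun x => ind (P x)) ^ j := by
  simp only [miss]
  rw [EL_prod, av_sub, av_const]

theorem two_le (t a b c : Prop) (h : t → ¬ (a ∧ b) ∧ ¬ (a ∧ c) ∧ ¬ (b ∧ c)) :
    ind t ≤ 1 + -1 * ind (a ∧ b) + -1 * ind (a ∧ c) + -1 * ind (b ∧ c) + 2 * ind (a ∧ b ∧ c) := by
  by_cases ht : t <;> by_cases ha : a <;> by_cases hb : b <;> by_cases hc : c <;>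
    simp_all [ind] <;> norm_num

theorem ind_two (L : Prop) (k i j : Fin 3) (h : i ≠ j) :
    ind (L ∧ k = i ∨ L ∧ k = j) = ind (L ∧ k = i) + ind (L ∧ k = j) := by
  by_cases hL : L <;> by_cases hi : k = i <;> by_cases hj : k = j <;> simp_all [ind]

theorem ind_three (L : Prop) (k : Fin 3) :
    ind L = ind (L ∧ k = 0) + ind (L ∧ k = 1) + ind (L ∧ k = 2) := by
  by_cases hL : L <;> fin_cases k <;> simp [ind, hL]

end TWO

open TWO

theorem rowTWO (hA : RowANA) : RowTWO := by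
  intro V _ _ hV δ p M S _ hp0 hp1 ⟨σ, hσ⟩
  haveI := nonempty_of_two hV
  obtain ⟨C, hC⟩ : ∃ C : Fin 3 → V → Prop, ∀ i x, C i x ↔ δ ≤ cl S x ∧ σ x = i :=
    ⟨_, fun _ _ => Iff.rfl⟩
  obtain ⟨φ, hφ⟩ : ∃ φ : Fin 3 → ℝ, ∀ i, φ i = av fun x => ind (C i x) := ⟨_, fun _ => rfl⟩
  have hφ0 : ∀ i, 0 ≤ φ i := fun i => by
    rw [hφ]; exact av_nonneg fun _ => ind_nonneg _
  have hP : Ph δ S = φ 0 + φ 1 + φ 2 := by
    rw [hφ, hφ, hφ, ← av_add, ← av_add]
    refine congrArg av (funext fun x => ?_)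
    rw [ind_congr (hC 0 x), ind_congr (hC 1 x), ind_congr (hC 2 x)]
    exact ind_three _ _
  have hP1 : Ph δ S ≤ 1 := av_le fun _ => ind_le_one _
  have h2 : ∀ i j, i ≠ j → ∀ n, EL n (fun z : List V =>
      ind ((∀ x ∈ z, ¬ C i x) ∧ ∀ x ∈ z, ¬ C j x)) = (1 - (φ i + φ j)) ^ n := by
    intro i j hij n
    have e : φ i + φ j = av fun x => ind (C i x ∨ C j x) := by
      rw [hφ, hφ, ← av_add]
      refine congrArg av (funext fun x => ?_)
      rw [ind_congr (hC i x), ind_congr (hC j x), ind_congr (or_congr (hC i x) (hC j x))]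
      exact (ind_two _ _ _ _ hij).symm
    rw [e, ← EL_miss]
    refine congrArg (EL n) (funext fun z => ind_congr ?_)
    simp only [not_or]
    exact ⟨fun h x hx => ⟨h.1 x hx, h.2 x hx⟩, fun h => ⟨fun x hx => (h x hx).1,
      fun x hx => (h x hx).2⟩⟩
  have h3 : ∀ n, EL n (fun z : List V => ind ((∀ x ∈ z, ¬ C 0 x) ∧ (∀ x ∈ z, ¬ C 1 x) ∧
      ∀ x ∈ z, ¬ C 2 x)) = (1 - Ph δ S) ^ n := by
    intro n
    rw [Ph, ← EL_miss]
    refine congrArg (EL n) (funext fun z => ind_congr ?_)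
    simp only [hC]
    refine ⟨fun h x hx hl => ?_, fun h => ⟨fun x hx hl => h x hx hl.1, fun x hx hl => h x hx hl.1,
      fun x hx hl => h x hx hl.1⟩⟩
    have : ∀ k : Fin 3, k = 0 ∨ k = 1 ∨ k = 2 := by decide
    rcases this (σ x) with e | e | e
    · exact h.1 x hx ⟨hl, e⟩
    · exact h.2.1 x hx ⟨hl, e⟩
    · exact h.2.2 x hx ⟨hl, e⟩
  have hT : ∀ z, Two δ S z → ∀ i j : Fin 3, i ≠ j →
      ¬ ((∀ x ∈ z, ¬ C i x) ∧ ∀ x ∈ z, ¬ C j x) := by
    rintro z ⟨-, hd, x, hx, y, hy, lx, ly, hxy⟩ i j hij ⟨hi, hj⟩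
    have hne : σ x ≠ σ y := (hd x y lx ly).resolve_left hxy σ hσ
    have a1 : σ x ≠ i := fun e => hi x hx ((hC _ _).2 ⟨lx, e⟩)
    have a2 : σ x ≠ j := fun e => hj x hx ((hC _ _).2 ⟨lx, e⟩)
    have a3 : σ y ≠ i := fun e => hi y hy ((hC _ _).2 ⟨ly, e⟩)
    have a4 : σ y ≠ j := fun e => hj y hy ((hC _ _).2 ⟨ly, e⟩)
    have : ∀ i j k l : Fin 3, i ≠ j → k ≠ l → k ≠ i → k ≠ j → l ≠ i → l ≠ j → False := by decide
    exact this i j _ _ hij hne a1 a2 a3 a4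
  have hE : ∀ n, EL n (fun z => ind (Two δ S z)) ≤ 1 + -1 * (1 - (φ 0 + φ 1)) ^ n +
      -1 * (1 - (φ 0 + φ 2)) ^ n + -1 * (1 - (φ 1 + φ 2)) ^ n + 2 * (1 - Ph δ S) ^ n := by
    intro n
    refine (EL_mono n fun z => two_le _ _ _ _ fun h => ⟨hT z h 0 1 (by decide),
      hT z h 0 2 (by decide), hT z h 1 2 (by decide)⟩).trans_eq ?_
    rw [EL_add, EL_add, EL_add, EL_add, EL_const, EL_mul_left, EL_mul_left, EL_mul_left,
      EL_mul_left, h2 0 1 (by decide), h2 0 2 (by decide), h2 1 2 (by decide), h3]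
  refine (bn_mono hp0 (by linarith) M hE).trans ?_
  rw [bn_comb]
  have key : ∀ t : ℝ, 0 ≤ t → t ≤ 1 →
      Real.exp (-(p * t * M)) ≤ (1 - p + p * (1 - t)) ^ M + M * p ^ 2 := by
    intro t t0 t1
    have hq : p * t ≤ p := mul_le_of_le_one_right hp0 t1
    have h := exp_le_pow (mul_nonneg hp0 t0) (by linarith : p * t ≤ 1) M
    have h' : (M : ℝ) * (p * t) ^ 2 ≤ M * p ^ 2 :=
      mul_le_mul_of_nonneg_left (pow_le_pow_left₀ (mul_nonneg hp0 t0) hq 2) (Nat.cast_nonneg M)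
    rw [show 1 - p + p * (1 - t) = 1 - p * t by ring]
    linarith
  have f0 := hφ0 0
  have f1 := hφ0 1
  have f2 := hφ0 2
  have k01 := key (φ 0 + φ 1) (by linarith) (by linarith)
  have k02 := key (φ 0 + φ 2) (by linarith) (by linarith)
  have k12 := key (φ 1 + φ 2) (by linarith) (by linarith)
  have k4 := pow_le_exp (q := p * Ph δ S)
    ((mul_le_of_le_one_right hp0 hP1).trans (by linarith)) M
  have hM : (0 : ℝ) ≤ p * M := by positivity
  have hana := hA (p * M * φ 0) (p * M * φ 1) (p * M * φ 2) (mul_nonneg hM f0) (mul_nonneg hM f1)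
    (mul_nonneg hM f2)
  rw [show p * M * φ 0 + p * M * φ 1 + p * M * φ 2 = p * Ph δ S * M by rw [hP]; ring,
    show p * M * φ 0 + p * M * φ 1 = p * (φ 0 + φ 1) * M by ring,
    show p * M * φ 0 + p * M * φ 2 = p * (φ 0 + φ 2) * M by ring,
    show p * M * φ 1 + p * M * φ 2 = p * (φ 1 + φ 2) * M by ring] at hana
  rw [show 1 - p + p * (1 - Ph δ S) = 1 - p * Ph δ S by ring,
    show p * M / 4.154 * Ph δ S = p * Ph δ S * M / 4.154 by ring]
  have hq : (0 : ℝ) ≤ M * p ^ 2 := by positivity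
  linarith

end Pool.Agent.MP_81f5b7_pr.G1
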